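import Mathlib

/-!
Complex analysis for Fermat's equation at an infinite place: relations between the absolute values
of `X = a + b`, `Y = b + c`, `Z = c + a`.
-/

set_option autoImplicit false

namespace Pool.Agent.W7.FH

lemma norm_pow_sub_pow_le' {u v : ℂ} {M : ℝ} (hu : ‖u‖ ≤ M) (hv : ‖v‖ ≤ M) (n : ℕ) :
    ‖u ^ (n + 1) - v ^ (n + 1)‖ ≤ ‖u - v‖ * (((n : ℝ) + 1) * M ^ n) := by
  have hM : 0 ≤ M := (norm_nonneg u).trans hu
  induction n with
  | zero => simp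
  | succ k ih =>
    have e : u ^ (k + 1 + 1) - v ^ (k + 1 + 1) = u ^ (k + 1) * (u - v) +
        (u ^ (k + 1) - v ^ (k + 1)) * v := by ring
    rw [e]
    have h1 : ‖u ^ (k + 1) * (u - v)‖ ≤ M ^ (k + 1) * ‖u - v‖ := by
      rw [norm_mul, norm_pow]
      exact mul_le_mul_of_nonneg_right (pow_le_pow_left₀ (norm_nonneg _) hu _) (norm_nonneg _)
    have h2 : ‖(u ^ (k + 1) - v ^ (k + 1)) * v‖ ≤ ‖u - v‖ * (((k : ℝ) + 1) * M ^ k) * M := by
      rw [norm_mul]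
      exact mul_le_mul ih hv (norm_nonneg _) (by positivity)
    calc _ ≤ M ^ (k + 1) * ‖u - v‖ + ‖u - v‖ * (((k : ℝ) + 1) * M ^ k) * M :=
          (norm_add_le _ _).trans (add_le_add h1 h2)
      _ = _ := by push_cast; ring

lemma exp_quarter_lt : Real.exp (1 / 4) < 4 / 3 := by
  have h1 : Real.exp (1 / 4) ^ 4 < (4 / 3 : ℝ) ^ 4 := by
    rw [← Real.exp_nat_mul]
    norm_num
    have := Real.exp_one_lt_d9
    linarith
  exact lt_of_pow_lt_pow_left₀ 4 (by norm_num) h1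

lemma one_add_pow_near {p : ℕ} (hp : 1 ≤ p) {δ : ℂ} (h : ‖δ‖ ≤ 1 / (4 * p)) :
    ‖(1 + δ) ^ p - 1‖ < 1 / 3 := by
  obtain ⟨n, rfl⟩ : ∃ n, p = n + 1 := ⟨p - 1, by omega⟩
  have hn : (0 : ℝ) < (n : ℝ) + 1 := by positivity
  push_cast at h
  have h1 := norm_pow_sub_pow_le' (u := 1 + δ) (v := 1) (M := 1 + 1 / (4 * ((n : ℝ) + 1)))
    ((norm_add_le _ _).trans (by rw [norm_one]; linarith)) (by
      rw [norm_one]
      have : (0 : ℝ) ≤ 1 / (4 * ((n : ℝ) + 1)) := by positivity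
      linarith) n
  rw [one_pow, add_sub_cancel_left] at h1
  have h2 : (1 + 1 / (4 * ((n : ℝ) + 1))) ^ n ≤ Real.exp (1 / 4) := by
    calc (1 + 1 / (4 * ((n : ℝ) + 1))) ^ n ≤ (Real.exp (1 / (4 * ((n : ℝ) + 1)))) ^ n := by
          apply pow_le_pow_left₀ (by positivity)
          rw [add_comm]
          exact Real.add_one_le_exp _
      _ = Real.exp (n * (1 / (4 * ((n : ℝ) + 1)))) := by rw [← Real.exp_nat_mul]
      _ ≤ Real.exp (1 / 4) := by
          apply Real.exp_le_exp.mpr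
          rw [mul_one_div, div_le_div_iff₀ (by positivity) (by norm_num)]
          linarith
  have h3 := exp_quarter_lt
  calc ‖(1 + δ) ^ (n + 1) - 1‖ ≤ ‖δ‖ * (((n : ℝ) + 1) * (1 + 1 / (4 * ((n : ℝ) + 1))) ^ n) := h1
    _ ≤ 1 / (4 * ((n : ℝ) + 1)) * (((n : ℝ) + 1) * Real.exp (1 / 4)) := by gcongr
    _ = 1 / 4 * Real.exp (1 / 4) := by field_simp
    _ < 1 / 3 := by linarith

/-- the middle absolute value is not too small -/
lemma far_case {p : ℕ} (hp : 1 ≤ p) {X Z : ℂ} (hX : ‖X‖ ≤ 1 / (8 * p)) (hZ : ‖Z‖ ≤ 1 / (8 * p))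
    (h : (1 + X - Z) ^ p - (1 - X - Z) ^ p + (1 + Z - X) ^ p = 0) : False := by
  have hpR : (0 : ℝ) < p := by exact_mod_cast hp
  have e8 : (1 : ℝ) / (8 * p) + 1 / (8 * p) = 1 / (4 * p) := by field_simp; norm_num
  have h1 := one_add_pow_near hp (δ := X - Z) ((norm_sub_le _ _).trans (by linarith))
  have h2 := one_add_pow_near hp (δ := -X - Z) ((norm_sub_le _ _).trans (by rw [norm_neg]; linarith))
  have h3 := one_add_pow_near hp (δ := Z - X) ((norm_sub_le _ _).trans (by linarith))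
  have e1 : (1 + (X - Z)) = 1 + X - Z := by ring
  have e2 : (1 + (-X - Z)) = 1 - X - Z := by ring
  have e3 : (1 + (Z - X)) = 1 + Z - X := by ring
  rw [e1] at h1
  rw [e2] at h2
  rw [e3] at h3
  have h4 : (1 : ℂ) = -(((1 + X - Z) ^ p - 1) - ((1 - X - Z) ^ p - 1) + ((1 + Z - X) ^ p - 1)) := by
    linear_combination h
  have h5 : ‖(1 : ℂ)‖ ≤ ‖(1 + X - Z) ^ p - 1‖ + ‖(1 - X - Z) ^ p - 1‖ + ‖(1 + Z - X) ^ p - 1‖ := by
    conv_lhs => rw [h4]
    rw [norm_neg]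
    exact (norm_add_le _ _).trans (add_le_add (norm_sub_le _ _) le_rfl)
  rw [norm_one] at h5
  linarith

lemma exp_neg_two_le {t : ℝ} (h0 : 0 ≤ t) (h1 : t ≤ 1 / 2) : Real.exp (-(2 * t)) ≤ 1 - t := by
  rw [Real.exp_neg, inv_le_comm₀ (Real.exp_pos _) (by linarith)]
  have h2 := Real.add_one_le_exp (2 * t)
  refine le_trans ?_ h2
  rw [inv_le_iff_one_le_mul₀ (by linarith)]
  nlinarith

/-- if the middle absolute value is small, the least one is not too small -/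
lemma near_case {p : ℕ} {B : ℝ} (hB : 0 < B) (hp : 4 * B ≤ p) {X Z : ℂ} (hX : ‖X‖ ≤ B / p)
    (hZ : ‖Z‖ ≤ ‖X‖) (h : (1 + X - Z) ^ p - (1 - X - Z) ^ p + (1 + Z - X) ^ p = 0) :
    Real.exp (-(6 * B)) / 2 ≤ p * ‖Z‖ := by
  have hpR : (0 : ℝ) < p := by linarith
  have hp1 : 1 ≤ p := by
    rcases Nat.eq_zero_or_pos p with h0 | h0
    · rw [h0] at hpR; simp at hpR
    · exact h0
  obtain ⟨n, rfl⟩ : ∃ n, p = n + 1 := ⟨p - 1, by omega⟩
  have hZ' : ‖Z‖ ≤ B / ((n + 1 : ℕ) : ℝ) := hZ.trans hX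
  obtain ⟨P, hP⟩ : ∃ P : ℝ, P = ((n + 1 : ℕ) : ℝ) := ⟨_, rfl⟩
  rw [← hP] at hp hX hZ' hpR ⊢
  have hn : (n : ℝ) + 1 = P := by rw [hP]; push_cast; rfl
  have hBP : 2 * B / P ≤ 1 / 2 := by
    rw [div_le_div_iff₀ hpR (by norm_num)]
    linarith
  have e2 : 2 * B / P = B / P + B / P := by ring
  have hBP0 : 0 ≤ 2 * B / P := by positivity
  -- lower bound
  have h1 : 1 - 2 * B / P ≤ ‖1 + X - Z‖ := by
    have e : (1 : ℂ) + X - Z = 1 - (Z - X) := by ring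
    rw [e]
    have h2 := norm_sub_norm_le (1 : ℂ) (Z - X)
    rw [norm_one] at h2
    have h3 := norm_sub_le Z X
    linarith
  have h2 : Real.exp (-(4 * B)) ≤ ‖1 + X - Z‖ ^ (n + 1) := by
    calc Real.exp (-(4 * B)) = (Real.exp (-(2 * (2 * B / P)))) ^ (n + 1) := by
          rw [← Real.exp_nat_mul, ← hP]
          congr 1
          field_simp
          ring
      _ ≤ (1 - 2 * B / P) ^ (n + 1) :=
          pow_le_pow_left₀ (Real.exp_pos _).le (exp_neg_two_le hBP0 hBP) _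
      _ ≤ _ := pow_le_pow_left₀ (by linarith) h1 _
  -- upper bound
  have e3 : (1 + X - Z) ^ (n + 1) = (1 - X - Z) ^ (n + 1) - (1 + Z - X) ^ (n + 1) := by
    linear_combination h
  have h3 : ‖(1 - X - Z) ^ (n + 1) - (1 + Z - X) ^ (n + 1)‖ ≤
      ‖(1 - X - Z) - (1 + Z - X)‖ * (((n : ℝ) + 1) * (1 + 2 * B / P) ^ n) := by
    apply norm_pow_sub_pow_le'
    · calc ‖1 - X - Z‖ ≤ ‖(1 : ℂ) - X‖ + ‖Z‖ := norm_sub_le _ _
        _ ≤ (‖(1 : ℂ)‖ + ‖X‖) + ‖Z‖ := by gcongr; exact norm_sub_le _ _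
        _ ≤ _ := by rw [norm_one]; linarith
    · calc ‖1 + Z - X‖ ≤ ‖(1 : ℂ) + Z‖ + ‖X‖ := norm_sub_le _ _
        _ ≤ (‖(1 : ℂ)‖ + ‖Z‖) + ‖X‖ := by gcongr; exact norm_add_le _ _
        _ ≤ _ := by rw [norm_one]; linarith
  have h4 : (1 + 2 * B / P) ^ n ≤ Real.exp (2 * B) := by
    calc (1 + 2 * B / P) ^ n ≤ (1 + 2 * B / P) ^ (n + 1) :=
          pow_le_pow_right₀ (by linarith) (by omega)
      _ ≤ (Real.exp (2 * B / P)) ^ (n + 1) := by
          apply pow_le_pow_left₀ (by linarith)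
          rw [add_comm]
          exact Real.add_one_le_exp _
      _ = Real.exp (2 * B) := by
          rw [← Real.exp_nat_mul, ← hP]
          congr 1
          field_simp
  have e4 : ‖(1 - X - Z) - (1 + Z - X)‖ = 2 * ‖Z‖ := by
    have : (1 - X - Z) - (1 + Z - X) = -(2 * Z) := by ring
    rw [this, norm_neg, norm_mul]
    simp
  rw [e4, hn, ← e3, norm_pow] at h3
  have h5 : Real.exp (-(4 * B)) ≤ 2 * ‖Z‖ * (P * Real.exp (2 * B)) := by
    refine h2.trans (h3.trans ?_)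
    gcongr
  have h6 : Real.exp (-(6 * B)) = Real.exp (-(4 * B)) * Real.exp (-(2 * B)) := by
    rw [← Real.exp_add]
    congr 1
    ring
  have h7 : Real.exp (2 * B) * Real.exp (-(2 * B)) = 1 := by
    rw [← Real.exp_add]
    simp
  rw [div_le_iff₀ (by norm_num), h6]
  calc Real.exp (-(4 * B)) * Real.exp (-(2 * B)) ≤
        2 * ‖Z‖ * (P * Real.exp (2 * B)) * Real.exp (-(2 * B)) :=
        mul_le_mul_of_nonneg_right h5 (Real.exp_pos _).le
    _ = 2 * ‖Z‖ * P * (Real.exp (2 * B) * Real.exp (-(2 * B))) := by ring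
    _ = P * ‖Z‖ * 2 := by rw [h7]; ring

end Pool.Agent.W7.FH
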