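import Mathlib

/-!
Finite places: if `a ^ p + b ^ p + c ^ p = 0` and `|a + b| < max (|a|, |b|, |c|)` at a finite place,
then `|a + b|` is very small.
-/

set_option autoImplicit false

namespace Pool.Agent.W7.FH

open NumberField IsDedekindDomain

variable {K : Type} [Field K] [NumberField K]

/-- the norm of the prime ideal of a finite place -/
noncomputable def nrm (v : FinitePlace K) : ℕ := Ideal.absNorm v.maximalIdeal.asIdeal

lemma one_lt_nrm (v : FinitePlace K) : 1 < nrm v :=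
  HeightOneSpectrum.one_lt_absNorm v.maximalIdeal

lemma one_lt_nrm' (v : FinitePlace K) : (1 : ℝ) < nrm v := by
  exact_mod_cast one_lt_nrm v

/-- the value group is discrete -/
lemma le_inv_nrm (v : FinitePlace K) {t : K} (h : v t < 1) : v t ≤ ((nrm v : ℕ) : ℝ)⁻¹ := by
  have hN := one_lt_nrm' v
  rcases eq_or_ne t 0 with rfl | ht
  · simp
  have h1 := FinitePlace.norm_embedding' v.maximalIdeal t
  rw [FinitePlace.norm_embedding_eq] at h1
  have hv : v.maximalIdeal.valuation K t ≠ 0 := (Valuation.ne_zero_iff _).mpr ht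
  rw [WithZeroMulInt.toNNReal_neg_apply _ hv] at h1
  set k : ℤ := Multiplicative.toAdd (WithZero.unzero hv) with hk
  have h2 : v t = ((nrm v : ℕ) : ℝ) ^ k := by
    rw [h1]
    push_cast
    rfl
  rw [h2] at h ⊢
  have hk0 : k < 0 := by
    by_contra hcon
    push Not at hcon
    exact absurd h (not_lt.mpr (one_le_zpow₀ hN.le hcon))
  have : k ≤ -1 := by omega
  calc ((nrm v : ℕ) : ℝ) ^ k ≤ ((nrm v : ℕ) : ℝ) ^ (-1 : ℤ) := zpow_le_zpow_right₀ hN.le this
    _ = _ := by simp


lemma natCast_le_one (v : FinitePlace K) (m : ℕ) : v (m : K) ≤ 1 := by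
  have h := FinitePlace.norm_le_one K v.maximalIdeal (m : 𝓞 K)
  rw [map_natCast, FinitePlace.norm_embedding_eq] at h
  exact h

lemma integer_le_one (v : FinitePlace K) (x : 𝓞 K) : v (x : K) ≤ 1 := by
  have h := FinitePlace.norm_le_one K v.maximalIdeal x
  rw [FinitePlace.norm_embedding_eq] at h
  exact h

/-- `|p| ≥ p ^ (-n)` -/
lemma prime_ge (v : FinitePlace K) {p : ℕ} (hp : 0 < p) :
    ((p : ℝ) ^ Module.finrank ℚ K)⁻¹ ≤ v (p : K) := by
  classical
  have hp0 : (p : K) ≠ 0 := by exact_mod_cast hp.ne'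
  have h1 := FinitePlace.prod_eq_inv_abs_norm hp0
  have h2 : (|Algebra.norm ℚ (p : K)| : ℚ) = (p : ℚ) ^ Module.finrank ℚ K := by
    have : (p : K) = algebraMap ℚ K p := by simp
    rw [this, Algebra.norm_algebraMap, abs_of_nonneg (by positivity)]
  rw [h2] at h1
  push_cast at h1
  rw [← h1]
  have hfin := FinitePlace.hasFiniteMulSupport hp0
  set S : Finset (FinitePlace K) := insert v hfin.toFinset with hS
  rw [finprod_eq_prod_of_mulSupport_subset (s := S) _ (by
    intro w hw
    rw [hS, Finset.coe_insert]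
    right
    exact Finset.mem_coe.mpr ((Set.Finite.mem_toFinset hfin).mpr hw))]
  rw [← Finset.mul_prod_erase S (fun w : FinitePlace K => w (p : K)) (Finset.mem_insert_self _ _)]
  calc v (p : K) * ∏ w ∈ S.erase v, w (p : K) ≤ v (p : K) * 1 := by
        apply mul_le_mul_of_nonneg_left _ (apply_nonneg _ _)
        exact Finset.prod_le_one (fun w _ => apply_nonneg _ _) (fun w _ => natCast_le_one w p)
    _ = v (p : K) := mul_one _

/-- if `|p| < 1` then the norm of the prime ideal is at least `p` -/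
lemma nrm_ge (v : FinitePlace K) {p : ℕ} (hp : p.Prime) (h : v (p : K) < 1) : p ≤ nrm v := by
  have h1 : ((p : ℕ) : 𝓞 K) ∈ v.maximalIdeal.asIdeal := by
    rw [← FinitePlace.norm_lt_one_iff_mem K, map_natCast, FinitePlace.norm_embedding_eq]
    exact h
  have h2 : ((nrm v : ℕ) : 𝓞 K) ∈ v.maximalIdeal.asIdeal := Ideal.absNorm_mem _
  by_contra hcon
  push Not at hcon
  have hco : Nat.Coprime (nrm v) p := by
    rw [Nat.coprime_comm]
    exact Nat.coprime_of_lt_prime (by have := one_lt_nrm v; omega) hcon hp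
  have h3 : IsCoprime ((nrm v : ℕ) : ℤ) ((p : ℕ) : ℤ) := Nat.isCoprime_iff_coprime.mpr hco
  obtain ⟨a, b, hab⟩ := h3
  apply v.maximalIdeal.isPrime.ne_top
  rw [Ideal.eq_top_iff_one]
  have h4 : (1 : 𝓞 K) = (a : 𝓞 K) * ((nrm v : ℕ) : 𝓞 K) + (b : 𝓞 K) * ((p : ℕ) : 𝓞 K) := by
    have := congrArg (fun z : ℤ => (z : 𝓞 K)) hab
    push_cast at this
    exact this.symm
  rw [h4]
  exact Ideal.add_mem _ (Ideal.mul_mem_left _ _ h2) (Ideal.mul_mem_left _ _ h1)

lemma sum_lt (v : FinitePlace K) {C : ℝ} (hC : 0 < C) {ι : Type} (s : Finset ι) (f : ι → K)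
    (h : ∀ i ∈ s, v (f i) < C) : v (∑ i ∈ s, f i) < C := by
  classical
  induction s using Finset.induction_on with
  | empty => simpa using hC
  | insert a s ha ih =>
    rw [Finset.sum_insert ha]
    exact lt_of_le_of_lt (FinitePlace.add_le v _ _)
      (max_lt (h a (Finset.mem_insert_self _ _)) (ih fun i hi => h i (Finset.mem_insert_of_mem hi)))

lemma add_eq_of_lt (v : FinitePlace K) {x y : K} (h : v y < v x) : v (x + y) = v x := by
  apply le_antisymm
  · exact (FinitePlace.add_le v x y).trans (max_le le_rfl h.le)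
  · have h1 := FinitePlace.add_le v (x + y) (-y)
    rw [add_neg_cancel_right, map_neg_eq_map] at h1
    rcases le_max_iff.1 h1 with h2 | h2
    · exact h2
    · exact absurd h (not_lt.mpr h2)

lemma one_add_pow (v : FinitePlace K) {p : ℕ} (hp : p.Prime) {t : K} (ht : v t < 1)
    (htp : v t ^ (p - 1) < v (p : K)) : v ((1 + t) ^ p - 1) = v (p : K) * v t := by
  have hp2 := hp.two_le
  rcases eq_or_ne t 0 with rfl | ht0
  · simp
  have hvt : 0 < v t := FinitePlace.pos_iff.mpr ht0
  have hp0 : (p : K) ≠ 0 := by exact_mod_cast hp.ne_zero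
  have hvp : 0 < v (p : K) := FinitePlace.pos_iff.mpr hp0
  have h1 : (1 + t) ^ p - 1 = p * t + ∑ m ∈ Finset.range (p - 1), t ^ (m + 2) * (p.choose (m + 2) : K) := by
    rw [add_comm 1 t, add_pow]
    have : p + 1 = (p - 1) + 1 + 1 := by omega
    rw [this, Finset.sum_range_succ', Finset.sum_range_succ']
    simp only [one_pow, mul_one, pow_zero, Nat.choose_zero_right, Nat.cast_one, zero_add, pow_one,
      Nat.choose_one_right]
    ring
  rw [h1, ← map_mul]
  apply add_eq_of_lt
  apply sum_lt v (by rw [map_mul]; positivity)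
  intro m hm
  rw [Finset.mem_range] at hm
  rw [map_mul, map_mul, map_pow]
  rcases Nat.lt_or_ge (m + 2) p with hlt | hge
  · obtain ⟨c, hc⟩ := hp.dvd_choose_self (by omega : m + 2 ≠ 0) hlt
    rw [hc]
    push_cast
    rw [map_mul]
    have h2 : v t ^ (m + 2) = v t * v t ^ (m + 1) := by ring
    have h3 : v t ^ (m + 1) < 1 := pow_lt_one₀ hvt.le ht (by omega)
    have h4 := natCast_le_one v c
    have h5 : (0 : ℝ) ≤ v (c : K) := apply_nonneg _ _
    calc v t ^ (m + 2) * (v (p : K) * v (c : K)) = v (p : K) * v t * (v t ^ (m + 1) * v (c : K)) := by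
          rw [h2]; ring
      _ < v (p : K) * v t * 1 := by
          apply mul_lt_mul_of_pos_left _ (by positivity)
          calc v t ^ (m + 1) * v (c : K) ≤ v t ^ (m + 1) * 1 := by gcongr
            _ < 1 := by rw [mul_one]; exact h3
      _ = _ := mul_one _
  · have h2 : m + 2 = p := by omega
    rw [h2, Nat.choose_self, Nat.cast_one, map_one, mul_one]
    have h3 : v t ^ p = v t * v t ^ (p - 1) := by
      rw [← pow_succ']
      congr 1
      omega
    rw [h3, mul_comm (v (p : K))]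
    exact mul_lt_mul_of_pos_left htp hvt


/-- `|(1 + t) ^ m - 1| = |m| |t|` if `|t| < 1` and `|t| ^ (p - 1) < |p|` for all `p ∣ m` -/
lemma one_add_pow_gen (v : FinitePlace K) (m : ℕ) :
    ∀ t : K, v t < 1 → m ≠ 0 → (∀ p : ℕ, p.Prime → p ∣ m → v t ^ (p - 1) < v (p : K)) →
    v ((1 + t) ^ m - 1) = v (m : K) * v t := by
  induction m using induction_on_primes with
  | zero => intro t ht h0; exact absurd rfl h0
  | one => intro t ht _ _; simp
  | prime_mul p a hp ih =>
    intro t ht hpa h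
    have ha0 : a ≠ 0 := by rintro rfl; simp at hpa
    have h1 := one_add_pow v hp ht (h p hp (dvd_mul_right p a))
    obtain ⟨t', ht'⟩ : ∃ t', t' = (1 + t) ^ p - 1 := ⟨_, rfl⟩
    rw [← ht'] at h1
    have hle : v t' ≤ v t := by
      rw [h1]
      calc v (p : K) * v t ≤ 1 * v t :=
            mul_le_mul_of_nonneg_right (natCast_le_one v p) (apply_nonneg _ _)
        _ = v t := one_mul _
    have h2 := ih t' (hle.trans_lt ht) ha0 (fun q hq hqa =>
      (pow_le_pow_left₀ (apply_nonneg _ _) hle _).trans_lt (h q hq (hqa.mul_left p)))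
    have h3 : (1 + t) ^ (p * a) = (1 + t') ^ a := by
      rw [pow_mul, ht', add_sub_cancel]
    rw [h3, h2, h1]
    push_cast
    rw [map_mul]
    ring

lemma exists_prime_of_lt (v : FinitePlace K) (m : ℕ) :
    m ≠ 0 → v (m : K) < 1 → ∃ p : ℕ, p.Prime ∧ p ∣ m ∧ v (p : K) < 1 := by
  induction m using induction_on_primes with
  | zero => intro h0; exact absurd rfl h0
  | one => intro _ h; simp at h
  | prime_mul p a hp ih =>
    intro hpa h
    have ha0 : a ≠ 0 := by rintro rfl; simp at hpa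
    rcases (natCast_le_one v p).lt_or_eq with h1 | h1
    · exact ⟨p, hp, dvd_mul_right p a, h1⟩
    · push_cast at h
      rw [map_mul, h1, one_mul] at h
      obtain ⟨q, hq, hqa, hq1⟩ := ih ha0 h
      exact ⟨q, hq, hqa.mul_left p, hq1⟩

lemma odd_of_big {d m : ℕ} (hd : 0 < d) (hm : ∀ p : ℕ, p.Prime → p ∣ m → d + 1 < p) : Odd m := by
  rw [← Nat.not_even_iff_odd]
  intro h
  have := hm 2 Nat.prime_two h.two_dvd
  omega

/-- the key estimate at a finite place -/
theorem local_small (v : FinitePlace K) {m : ℕ} (hm2 : 2 ≤ m)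
    (hm : ∀ p : ℕ, p.Prime → p ∣ m → Module.finrank ℚ K + 1 < p) {a b c : K} (hb : b ≠ 0)
    (h : a ^ m + b ^ m + c ^ m = 0) (hlt : v (a + b) < max (max (v a) (v b)) (v c))
    {Q : ℝ} (hQ1 : Q ≤ (nrm v : ℝ) ^ m)
    (hQ2 : Q * (m : ℝ) ^ Module.finrank ℚ K ≤ (m.minFac : ℝ) ^ m) :
    Q * v (a + b) ≤ max (max (v a) (v b)) (v c) := by
  obtain ⟨n, hn⟩ : ∃ n, n = Module.finrank ℚ K := ⟨_, rfl⟩
  rw [← hn] at hm hQ2
  have hnpos : 0 < n := by rw [hn]; exact Module.finrank_pos
  have hodd : Odd m := odd_of_big hnpos hm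
  have hvb : 0 < v b := FinitePlace.pos_iff.mpr hb
  -- `|c| ≤ max (|a|, |b|)`
  have h1 : v c ≤ max (v a) (v b) := by
    have h2 : c ^ m = -(a ^ m + b ^ m) := by linear_combination h
    have h3 : v c ^ m ≤ (max (v a) (v b)) ^ m := by
      rw [← map_pow, h2, map_neg_eq_map]
      refine (FinitePlace.add_le v _ _).trans (max_le ?_ ?_)
      · rw [map_pow]
        exact pow_le_pow_left₀ (apply_nonneg _ _) (le_max_left _ _) _
      · rw [map_pow]
        exact pow_le_pow_left₀ (apply_nonneg _ _) (le_max_right _ _) _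
    exact le_of_pow_le_pow_left₀ (by omega) (le_max_of_le_left (apply_nonneg _ _)) h3
  rw [max_eq_left h1] at hlt ⊢
  have h2 : v a = v b := by
    rcases lt_trichotomy (v a) (v b) with h3 | h3 | h3
    · exfalso
      rw [add_comm, add_eq_of_lt v h3, max_eq_right h3.le] at hlt
      exact lt_irrefl _ hlt
    · exact h3
    · exfalso
      rw [add_eq_of_lt v h3, max_eq_left h3.le] at hlt
      exact lt_irrefl _ hlt
  rw [h2, max_self] at hlt ⊢
  obtain ⟨t, ht⟩ : ∃ t : K, t = -(a + b) / b := ⟨_, rfl⟩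
  have hvt : v t = v (a + b) / v b := by
    rw [ht, map_div₀, map_neg_eq_map]
  have hvt1 : v t < 1 := by rw [hvt, div_lt_one hvb]; exact hlt
  have hvt0 : 0 ≤ v t := apply_nonneg _ _
  have h3 : (1 + t) ^ m - 1 = (c / b) ^ m := by
    have h4 : 1 + t = -(a / b) := by rw [ht]; field_simp; ring
    rw [h4, hodd.neg_pow, div_pow, div_pow, eq_div_iff (pow_ne_zero m hb), sub_mul, neg_mul,
      div_mul_cancel₀ _ (pow_ne_zero m hb)]
    linear_combination -h
  have hN := one_lt_nrm' v
  have hm0 : (m : K) ≠ 0 := by exact_mod_cast (by omega : m ≠ 0)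
  have hvm0 : 0 < v (m : K) := FinitePlace.pos_iff.mpr hm0
  have h5 : ∀ p : ℕ, p.Prime → p ∣ m → v t ^ (p - 1) < v (p : K) := by
    intro p hp hpm
    have hpR : (1 : ℝ) < p := by exact_mod_cast hp.one_lt
    have hnp := hm p hp hpm
    rcases (natCast_le_one v p).lt_or_eq with h6 | h6
    · have h7 := nrm_ge v hp h6
      have h8 : v t ≤ ((p : ℕ) : ℝ)⁻¹ := (le_inv_nrm v hvt1).trans (by
        apply inv_anti₀ (by positivity)
        exact_mod_cast h7)
      calc v t ^ (p - 1) ≤ (((p : ℕ) : ℝ)⁻¹) ^ (p - 1) := pow_le_pow_left₀ hvt0 h8 _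
        _ = ((p : ℝ) ^ (p - 1))⁻¹ := by rw [inv_pow]
        _ < ((p : ℝ) ^ n)⁻¹ := by
            apply inv_strictAnti₀ (by positivity)
            exact pow_lt_pow_right₀ hpR (by omega)
        _ ≤ v (p : K) := by rw [hn]; exact prime_ge v hp.pos
    · rw [h6]
      exact pow_lt_one₀ hvt0 hvt1 (by have := hp.two_le; omega)
  have h6 := one_add_pow_gen v m t hvt1 (by omega) h5
  rw [h3, map_pow] at h6
  have hρ0 : 0 ≤ v (c / b) := apply_nonneg _ _
  have hρ : v (c / b) < 1 := by
    by_contra hcon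
    push Not at hcon
    have h7 := one_le_pow₀ (n := m) hcon
    rw [h6] at h7
    have h8 : v (m : K) * v t ≤ 1 * v t := mul_le_mul_of_nonneg_right (natCast_le_one v m) hvt0
    linarith
  have hρ2 := le_inv_nrm v hρ
  have h7 : Q * v t ≤ 1 := by
    rcases (natCast_le_one v m).lt_or_eq with h8 | h8
    · obtain ⟨p, hp, hpm, hvp⟩ := exists_prime_of_lt v m (by omega) h8
      have h9 := nrm_ge v hp hvp
      have h9' : m.minFac ≤ nrm v := (Nat.minFac_le_of_dvd hp.two_le hpm).trans h9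
      have hmf : 0 < (m.minFac : ℝ) := by exact_mod_cast Nat.minFac_pos m
      have h10 : v (c / b) ≤ ((m.minFac : ℕ) : ℝ)⁻¹ := hρ2.trans (by
        apply inv_anti₀ hmf
        exact_mod_cast h9')
      have hmR : (0 : ℝ) < m := by exact_mod_cast (by omega : 0 < m)
      have hge := prime_ge v (p := m) (by omega)
      rw [← hn] at hge
      have h11 : ((m : ℝ) ^ n)⁻¹ * v t ≤ ((m.minFac : ℝ) ^ m)⁻¹ := by
        calc ((m : ℝ) ^ n)⁻¹ * v t ≤ v (m : K) * v t := mul_le_mul_of_nonneg_right hge hvt0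
          _ = v (c / b) ^ m := h6.symm
          _ ≤ (((m.minFac : ℕ) : ℝ)⁻¹) ^ m := pow_le_pow_left₀ hρ0 h10 _
          _ = _ := by rw [inv_pow]
      have h12 : v t ≤ (m : ℝ) ^ n * ((m.minFac : ℝ) ^ m)⁻¹ := by
        have := mul_le_mul_of_nonneg_left h11 (show (0 : ℝ) ≤ (m : ℝ) ^ n by positivity)
        rwa [← mul_assoc, mul_inv_cancel₀ (by positivity), one_mul] at this
      rcases le_or_gt Q 0 with hQ0 | hQ0
      · have := mul_nonpos_of_nonpos_of_nonneg hQ0 hvt0
        linarith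
      calc Q * v t ≤ Q * ((m : ℝ) ^ n * ((m.minFac : ℝ) ^ m)⁻¹) :=
            mul_le_mul_of_nonneg_left h12 hQ0.le
        _ = (Q * (m : ℝ) ^ n) * ((m.minFac : ℝ) ^ m)⁻¹ := by ring
        _ ≤ (m.minFac : ℝ) ^ m * ((m.minFac : ℝ) ^ m)⁻¹ :=
            mul_le_mul_of_nonneg_right hQ2 (by positivity)
        _ = 1 := mul_inv_cancel₀ (by positivity)
    · rw [h8, one_mul] at h6
      rw [← h6]
      calc Q * v (c / b) ^ m ≤ (nrm v : ℝ) ^ m * (((nrm v : ℕ) : ℝ)⁻¹) ^ m :=
            mul_le_mul hQ1 (pow_le_pow_left₀ hρ0 hρ2 _) (by positivity) (by positivity)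
        _ = 1 := by rw [← mul_pow, mul_inv_cancel₀ (by positivity), one_pow]
  have h8 : v (a + b) = v t * v b := by rw [hvt]; field_simp
  calc Q * v (a + b) = (Q * v t) * v b := by rw [h8]; ring
    _ ≤ 1 * v b := mul_le_mul_of_nonneg_right h7 hvb.le
    _ = v b := one_mul _

end Pool.Agent.W7.FH
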