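import Pool.Agent.W7.FH.Un

/-!
Fermat's equation over number fields with a prime ideal of norm `2`.
-/

set_option autoImplicit false

namespace Pool.Agent.W7.FH

open NumberField IsDedekindDomain Height

variable {K : Type} [Field K] [NumberField K]

lemma valuation_le_one (v : FinitePlace K) {x : K} (h : v x ≤ 1) :
    v.maximalIdeal.valuation K x ≤ 1 := by
  have h2 := h
  have h1 := FinitePlace.norm_embedding' v.maximalIdeal x
  rw [FinitePlace.norm_embedding_eq] at h1
  rw [h1] at h2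
  have h3 : WithZeroMulInt.toNNReal (HeightOneSpectrum.absNorm_ne_zero v.maximalIdeal)
      (v.maximalIdeal.valuation K x) ≤ 1 := by
    exact_mod_cast h2
  rwa [WithZeroMulInt.toNNReal_le_one_iff
    (HeightOneSpectrum.one_lt_absNorm_nnreal v.maximalIdeal)] at h3

lemma mem_iff_lt_one (v : FinitePlace K) (x : 𝓞 K) :
    x ∈ v.maximalIdeal.asIdeal ↔ v (x : K) < 1 := by
  rw [← FinitePlace.norm_lt_one_iff_mem K, FinitePlace.norm_embedding_eq]

lemma eq_one_of_not_mem (v : FinitePlace K) (x : 𝓞 K) (h : x ∉ v.maximalIdeal.asIdeal) :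
    v (x : K) = 1 := by
  rw [mem_iff_lt_one] at h
  exact le_antisymm (integer_le_one v x) (not_lt.mp h)

/-- in a residue field with two elements, two units are congruent -/
lemma sub_mem_of_two (v : FinitePlace K) (h2 : nrm v = 2) {x y : 𝓞 K}
    (hx : x ∉ v.maximalIdeal.asIdeal) (hy : y ∉ v.maximalIdeal.asIdeal) :
    x - y ∈ v.maximalIdeal.asIdeal := by
  have hcard : Nat.card (𝓞 K ⧸ v.maximalIdeal.asIdeal) = 2 := by
    rw [← h2]
    rfl
  rw [← Ideal.Quotient.eq]
  rw [← Ideal.Quotient.eq_zero_iff_mem] at hx hy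
  by_contra hne
  have : Finite (𝓞 K ⧸ v.maximalIdeal.asIdeal) := Nat.finite_of_card_ne_zero (by rw [hcard]; norm_num)
  have := Fintype.ofFinite (𝓞 K ⧸ v.maximalIdeal.asIdeal)
  classical
  have h3 : ({Ideal.Quotient.mk v.maximalIdeal.asIdeal x, Ideal.Quotient.mk v.maximalIdeal.asIdeal y, 0} :
      Finset (𝓞 K ⧸ v.maximalIdeal.asIdeal)).card = 3 := by
    rw [Finset.card_eq_three]
    exact ⟨_, _, _, hne, hx, hy, rfl⟩
  have h4 := Finset.card_le_univ ({Ideal.Quotient.mk v.maximalIdeal.asIdeal x,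
    Ideal.Quotient.mk v.maximalIdeal.asIdeal y, 0} : Finset (𝓞 K ⧸ v.maximalIdeal.asIdeal))
  rw [h3, ← Nat.card_eq_fintype_card, hcard] at h4
  omega

lemma sub_one_lt (v : FinitePlace K) (h2 : nrm v = 2) {x : K} (hx : v x = 1) :
    v (x - 1) < 1 := by
  obtain ⟨n, ⟨d, hd⟩, hnd⟩ :=
    HeightOneSpectrum.exists_primeCompl_mul_eq_of_integer v.maximalIdeal x (valuation_le_one v hx.le)
  have hd' : d ∉ v.maximalIdeal.asIdeal := hd
  have hvd := eq_one_of_not_mem v d hd'
  have hvn : v (n : K) = 1 := by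
    have := congrArg v hnd
    simp only [map_mul] at this
    rw [hx, one_mul] at this
    exact this.symm.trans hvd
  have hn : n ∉ v.maximalIdeal.asIdeal := by
    rw [mem_iff_lt_one, hvn]
    exact lt_irrefl _
  have h3 := sub_mem_of_two v h2 hn hd'
  rw [mem_iff_lt_one] at h3
  have h4 : (x - 1) * (d : K) = ((n - d : 𝓞 K) : K) := by
    push_cast
    rw [sub_mul, one_mul]
    congr 1
  have h5 := congrArg v h4
  rw [map_mul, hvd, mul_one] at h5
  rw [h5]
  exact h3

/-- at a place of norm two, the three sums cannot all be of maximal absolute value -/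
lemma norm_two {a b c : K} (v : FinitePlace K) (h2 : nrm v = 2) (hca : c + a ≠ 0)
    (h : v (a + b) = mx v a b c ∧ v (b + c) = mx v a b c ∧ v (c + a) = mx v a b c) : False := by
  obtain ⟨h1, h3, h4⟩ := h
  have hM : 0 < v (c + a) := FinitePlace.pos_iff.mpr hca
  have h5 : v ((a + b) / (b + c)) = 1 := by
    rw [map_div₀, h1, h3, ← h4, div_self hM.ne']
  have h6 := sub_one_lt v h2 h5
  have hbc : b + c ≠ 0 := by
    intro h0
    rw [h0, map_zero, ← h4] at h3
    exact hM.ne h3
  have h7 : ((a + b) / (b + c) - 1) * (b + c) = (c + a) - 2 * c := by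
    field_simp
    ring
  have h8 : v ((c + a) - 2 * c) < v (c + a) := by
    rw [← h7, map_mul, h3, ← h4]
    exact mul_lt_of_lt_one_left hM h6
  have h9 : v (2 * c) < v (c + a) := by
    have h10 : v (2 : K) < 1 := by
      have h11 : ((2 : ℕ) : 𝓞 K) ∈ v.maximalIdeal.asIdeal := by
        have := Ideal.absNorm_mem v.maximalIdeal.asIdeal
        change ((nrm v : ℕ) : 𝓞 K) ∈ _ at this
        rwa [h2] at this
      rw [mem_iff_lt_one] at h11
      have e : (((2 : ℕ) : 𝓞 K) : K) = 2 := by push_cast; rfl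
      rwa [e] at h11
    have h12 : v c ≤ v (c + a) := by
      rw [h4]
      exact le_max_right _ _
    rw [map_mul]
    rcases eq_or_ne c 0 with rfl | hc
    · simpa using hM
    have h13 : 0 < v c := FinitePlace.pos_iff.mpr hc
    calc v (2 : K) * v c < 1 * v c := mul_lt_mul_of_pos_right h10 h13
      _ = v c := one_mul _
      _ ≤ _ := h12
  have h10 := FinitePlace.add_le v ((c + a) - 2 * c) (2 * c)
  rw [sub_add_cancel] at h10
  exact absurd h10 (not_le.mpr (max_lt h8 h9))

lemma pow_bound {d l n : ℕ} (hl : 4 ≤ l) (hd : 2 * d ≤ l) (hn : 1 ≤ n) (hln : l ∣ n) :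
    2 ^ n * n ^ d ≤ l ^ n := by
  obtain ⟨m, rfl⟩ := hln
  have hm : 1 ≤ m := by
    rcases Nat.eq_zero_or_pos m with rfl | h
    · simp at hn
    · exact h
  have h1 : 2 ^ l * l ^ d ≤ l ^ l := by
    have h2 : l ^ l = l ^ (l - d) * l ^ d := by
      rw [← pow_add]
      congr 1
      omega
    rw [h2]
    apply Nat.mul_le_mul_right
    have h3 : (2 ^ l) ^ 2 ≤ (l ^ (l - d)) ^ 2 := by
      calc (2 ^ l) ^ 2 = 4 ^ l := by rw [← pow_mul, mul_comm, pow_mul]; norm_num
        _ ≤ l ^ l := Nat.pow_le_pow_left hl _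
        _ ≤ l ^ ((l - d) * 2) := Nat.pow_le_pow_right (by omega) (by omega)
        _ = (l ^ (l - d)) ^ 2 := by rw [pow_mul]
    exact (Nat.pow_le_pow_iff_left (by norm_num)).mp h3
  have h4 : l * m ≤ l ^ m := by
    clear h1 hn hd
    induction m with
    | zero => omega
    | succ k ih =>
      rcases Nat.eq_zero_or_pos k with rfl | hk
      · simp
      · have := ih hk
        have h5 : l * k * 2 ≤ l ^ k * l := Nat.mul_le_mul this (by omega)
        rw [pow_succ]
        nlinarith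
  calc 2 ^ (l * m) * (l * m) ^ d ≤ 2 ^ (l * m) * (l ^ m) ^ d := by gcongr
    _ = (2 ^ l * l ^ d) ^ m := by rw [mul_pow, ← pow_mul, ← pow_mul, ← pow_mul, mul_comm m d]
    _ ≤ (l ^ l) ^ m := Nat.pow_le_pow_left h1 m
    _ = l ^ (l * m) := by rw [← pow_mul]

theorem norm_two_main (hK : ∃ P : Ideal (𝓞 K), P.IsPrime ∧ Ideal.absNorm P = 2) {n : ℕ}
    (hn : 2 ≤ n) (hp : ∀ p : ℕ, p.Prime → p ∣ n → 5 ≤ p ∧ 2 * Module.finrank ℚ K ≤ p)
    {a b c : K} (ha : a ≠ 0) (hb : b ≠ 0) (hc : c ≠ 0)
    (h : a ^ n + b ^ n + c ^ n = 0) :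
    (2 : ℝ) ^ n ≤ 2 ^ Module.finrank ℚ K * mulHeight ![a, b, c] := by
  obtain ⟨P, hP, hP2⟩ := hK
  have hd : 0 < Module.finrank ℚ K := Module.finrank_pos
  have hPbot : P ≠ ⊥ := by
    rintro rfl
    simp at hP2
  set v : FinitePlace K := FinitePlace.mk (⟨P, hP, hPbot⟩ : HeightOneSpectrum (𝓞 K)) with hv
  have hv2 : nrm v = 2 := by
    rw [nrm, hv, FinitePlace.maximalIdeal_mk]
    exact hP2
  by_contra hcon
  push Not at hcon
  have hm : ∀ p : ℕ, p.Prime → p ∣ n → Module.finrank ℚ K + 1 < p := by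
    intro p hpp hpn
    have := hp p hpp hpn
    omega
  have hmf : n.minFac.Prime := Nat.minFac_prime (by omega)
  have h5 := hp _ hmf (Nat.minFac_dvd n)
  have h1 := units_of_small hn hm ha hb hc h (Q := (2 : ℝ) ^ n) (by positivity) (fun w => by
      apply pow_le_pow_left₀ (by norm_num)
      have := one_lt_nrm w
      exact_mod_cast this) (by
      have := pow_bound (d := Module.finrank ℚ K) (l := n.minFac) (n := n) (by omega) h5.2 (by omega)
        (Nat.minFac_dvd n)
      exact_mod_cast this) hcon v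
  have hodd : Odd n := odd_of_big hd hm
  exact norm_two v hv2 (add_ne_zero_of_fermat hodd hb (by linear_combination h)) h1

end Pool.Agent.W7.FH
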