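import Pool.Agent.W7.FH.Gr
import Pool.Agent.W7.FH.N2

/-!
Fermat's equation over number fields: solutions have height at least `(p / 3) ^ d`.
-/

set_option autoImplicit false

namespace Pool.Agent.W7.FH

open NumberField IsDedekindDomain Height

lemma add_pow_lt_of_pos {p : ℕ} (hp : 2 ≤ p) {u v : ℝ} (hu : 0 < u) (hv : 0 < v) :
    u ^ p + v ^ p < (u + v) ^ p := by
  obtain ⟨k, rfl⟩ : ∃ k, p = k + 1 := ⟨p - 1, by omega⟩
  have h1 : u ^ k < (u + v) ^ k := pow_lt_pow_left₀ (by linarith) hu.le (by omega)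
  have h2 : v ^ k < (u + v) ^ k := pow_lt_pow_left₀ (by linarith) hv.le (by omega)
  rw [pow_succ, pow_succ, pow_succ, mul_add]
  have h3 := mul_lt_mul_of_pos_right h1 hu
  have h4 := mul_lt_mul_of_pos_right h2 hv
  linarith

lemma real_no_sum_zero {p : ℕ} (hp : 2 ≤ p) (hodd : Odd p) {x y z : ℝ} (hx : x ≠ 0) (hy : y ≠ 0)
    (hz : z ≠ 0) (h : x ^ p + y ^ p + z ^ p = 0) (hs : x + y + z = 0) : False := by
  have key : ∀ u v w : ℝ, 0 < u * v → u ^ p + v ^ p + w ^ p = 0 → u + v + w = 0 → False := by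
    intro u v w huv h1 h2
    have hw : w = -(u + v) := by linarith
    rw [hw, hodd.neg_pow] at h1
    rcases pos_and_pos_or_neg_and_neg_of_mul_pos huv with ⟨h3, h4⟩ | ⟨h3, h4⟩
    · have := add_pow_lt_of_pos hp h3 h4
      linarith
    · have h5 := add_pow_lt_of_pos hp (neg_pos.mpr h3) (neg_pos.mpr h4)
      rw [show -u + -v = -(u + v) by ring] at h5
      simp only [hodd.neg_pow] at h5
      linarith
  rcases lt_or_gt_of_ne (mul_ne_zero hx hy) with h1 | h1
  · rcases lt_or_gt_of_ne (mul_ne_zero hy hz) with h2 | h2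
    · apply key x z y _ (by linarith) (by linarith)
      by_contra h3
      push Not at h3
      have h4 : 0 < (x * y) * (y * z) := mul_pos_of_neg_of_neg h1 h2
      have h5 : (x * y) * (y * z) = (x * z) * y ^ 2 := by ring
      rw [h5] at h4
      have h6 : 0 < y ^ 2 := by positivity
      nlinarith
    · exact key y z x h2 (by linarith) (by linarith)
  · exact key x y z h1 h hs

lemma pow_le_two_pow {p d : ℕ} (h : 4 * d ^ 2 ≤ p) : p ^ d ≤ 2 ^ p := by
  obtain ⟨k, hk⟩ : ∃ k, k = Nat.sqrt p := ⟨_, rfl⟩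
  have h1 : p < (k + 1) ^ 2 := by rw [hk]; exact Nat.lt_succ_sqrt' p
  have h2 : k ^ 2 ≤ p := by rw [hk]; exact Nat.sqrt_le' p
  have h3 : 2 * d ≤ k := by
    rw [hk, Nat.le_sqrt']
    calc (2 * d) ^ 2 = 4 * d ^ 2 := by ring
      _ ≤ p := h
  have h4 : k + 1 ≤ 2 ^ k := Nat.succ_le_of_lt Nat.lt_two_pow_self
  calc p ^ d ≤ ((k + 1) ^ 2) ^ d := Nat.pow_le_pow_left h1.le d
    _ = (k + 1) ^ (2 * d) := by rw [← pow_mul]
    _ ≤ (k + 1) ^ k := Nat.pow_le_pow_right (by omega) h3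
    _ ≤ (2 ^ k) ^ k := Nat.pow_le_pow_left h4 k
    _ = 2 ^ (k ^ 2) := by rw [← pow_mul, sq]
    _ ≤ 2 ^ p := Nat.pow_le_pow_right (by norm_num) h2

variable {K : Type} [Field K] [NumberField K]

theorem grunert_main {p : ℕ} (hp : p.Prime) (h5 : 5 ≤ p)
    (hpd : 4 * Module.finrank ℚ K ^ 2 ≤ p) (hd : ¬ (p : ℤ) ∣ discr K)
    {a b c : K} (ha : a ≠ 0) (hb : b ≠ 0) (hc : c ≠ 0) (h : a ^ p + b ^ p + c ^ p = 0)
    (hs : a + b + c ≠ 0) :
    ((p : ℝ) / 3) ^ Module.finrank ℚ K ≤ mulHeight ![a, b, c] := by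
  by_contra hcon
  push Not at hcon
  have hdpos : 0 < Module.finrank ℚ K := Module.finrank_pos
  obtain ⟨d, hdd⟩ : ∃ d, d = Module.finrank ℚ K := ⟨_, rfl⟩
  have hdd2 : d + 1 < p := by
    rw [← hdd] at hpd hdpos
    nlinarith
  have hmain : (2 : ℝ) ^ Module.finrank ℚ K * mulHeight ![a, b, c] < 2 ^ p := by
    have h1 : (2 : ℝ) ^ Module.finrank ℚ K * mulHeight ![a, b, c] <
        2 ^ Module.finrank ℚ K * ((p : ℝ) / 3) ^ Module.finrank ℚ K :=
      mul_lt_mul_of_pos_left hcon (by positivity)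
    have h2 : (2 : ℝ) ^ Module.finrank ℚ K * ((p : ℝ) / 3) ^ Module.finrank ℚ K ≤
        (p : ℝ) ^ Module.finrank ℚ K := by
      rw [← mul_pow]
      apply pow_le_pow_left₀ (by positivity)
      have : (0 : ℝ) ≤ p := Nat.cast_nonneg p
      linarith
    have h3 : (p : ℝ) ^ Module.finrank ℚ K ≤ 2 ^ p := by
      exact_mod_cast pow_le_two_pow hpd
    linarith
  have hm : ∀ q : ℕ, q.Prime → q ∣ p → Module.finrank ℚ K + 1 < q := by
    intro q hq hqp
    rw [(Nat.prime_dvd_prime_iff_eq hq hp).mp hqp, ← hdd]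
    exact hdd2
  have hunits := units_of_small (by omega) hm ha hb hc h (Q := (2 : ℝ) ^ p) (by positivity)
    (fun w => by
      apply pow_le_pow_left₀ (by norm_num)
      have := one_lt_nrm w
      exact_mod_cast this) (by
      rw [hp.minFac_eq]
      have h2d : 2 * Module.finrank ℚ K ≤ p := by
        rw [← hdd] at hpd hdpos ⊢
        nlinarith
      have := pow_bound (d := Module.finrank ℚ K) (l := p) (n := p) (by omega) h2d (by omega)
        dvd_rfl
      exact_mod_cast this) hmain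
  have hodd : Odd p := hp.odd_of_ne_two (by omega)
  have hca : c + a ≠ 0 := add_ne_zero_of_fermat hodd hb (by linear_combination h)
  have h1 := height_ge_sum ha hb hc hs hp.pos
    (sum_le_of_units hp hd h hca fun v => (hunits v).2.2)
  linarith

theorem sum_ne_zero_of_real {p : ℕ} (hp : 2 ≤ p) (hodd : Odd p) (w : InfinitePlace K)
    (hw : w.IsReal) {a b c : K} (ha : a ≠ 0) (hb : b ≠ 0) (hc : c ≠ 0)
    (h : a ^ p + b ^ p + c ^ p = 0) : a + b + c ≠ 0 := by
  intro hs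
  set φ : K →+* ℝ := w.embedding_of_isReal hw
  have h1 := congrArg φ h
  have h2 := congrArg φ hs
  simp only [map_add, map_pow, map_zero] at h1 h2
  exact real_no_sum_zero hp hodd ((map_ne_zero φ).mpr ha) ((map_ne_zero φ).mpr hb)
    ((map_ne_zero φ).mpr hc) h1 h2

end Pool.Agent.W7.FH
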