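import Mathlib

/-!
If `p` does not divide the discriminant of `K` and `p` divides `s ^ p` in the ring of integers, then
`p` divides `s`.
-/

set_option autoImplicit false

namespace Pool.Agent.W7.FH

open NumberField Matrix

variable {K : Type} [Field K] [NumberField K]

lemma trace_pow_modEq {p : ℕ} (hp : p.Prime) (y : 𝓞 K) :
    (p : ℤ) ∣ Algebra.trace ℤ (𝓞 K) (y ^ p) - (Algebra.trace ℤ (𝓞 K) y) ^ p := by
  have := Fact.mk hp
  classical
  rw [Algebra.trace_eq_matrix_trace (RingOfIntegers.basis K),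
    Algebra.trace_eq_matrix_trace (RingOfIntegers.basis K), map_pow]
  rw [← ZMod.intCast_zmod_eq_zero_iff_dvd]
  push_cast
  have key : ∀ N : Matrix (Module.Free.ChooseBasisIndex ℤ (𝓞 K)) (Module.Free.ChooseBasisIndex ℤ (𝓞 K)) ℤ,
      ((N.trace : ℤ) : ZMod p) = ((Int.castRingHom (ZMod p)).mapMatrix N).trace := by
    intro N
    simp [Matrix.trace]
  rw [key, key, map_pow, ZMod.trace_pow_card, sub_self]

theorem dvd_of_dvd_pow {p : ℕ} (hp : p.Prime) (hd : ¬ (p : ℤ) ∣ discr K) {s : 𝓞 K}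
    (hs : (p : 𝓞 K) ∣ s ^ p) : (p : 𝓞 K) ∣ s := by
  classical
  have hpZ : _root_.Prime (p : ℤ) := Nat.prime_iff_prime_int.mp hp
  have h1 : ∀ y : 𝓞 K, (p : ℤ) ∣ Algebra.trace ℤ (𝓞 K) (s * y) := by
    intro y
    have h2 := trace_pow_modEq hp (s * y)
    obtain ⟨z, hz⟩ := hs
    have h3 : Algebra.trace ℤ (𝓞 K) ((s * y) ^ p) = p * Algebra.trace ℤ (𝓞 K) (z * y ^ p) := by
      have : (s * y) ^ p = (p : ℤ) • (z * y ^ p) := by
        rw [mul_pow, hz, zsmul_eq_mul]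
        push_cast
        ring
      rw [this, map_smul, smul_eq_mul]
    rw [h3] at h2
    have h4 : (p : ℤ) ∣ (Algebra.trace ℤ (𝓞 K) (s * y)) ^ p := by
      have := dvd_sub (Dvd.intro _ rfl : (p : ℤ) ∣ p * Algebra.trace ℤ (𝓞 K) (z * y ^ p)) h2
      simpa using this
    exact hpZ.dvd_of_dvd_pow h4
  obtain ⟨b, hb⟩ : ∃ b, b = RingOfIntegers.basis K := ⟨_, rfl⟩
  obtain ⟨T, hT⟩ : ∃ T, T = Algebra.traceMatrix ℤ b := ⟨_, rfl⟩
  have hdet : T.det = discr K := by
    rw [hT, hb]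
    rfl
  have h2 : ∀ i, (p : ℤ) ∣ (T *ᵥ (b.repr s)) i := by
    intro i
    have h3 : (T *ᵥ (b.repr s)) i = Algebra.trace ℤ (𝓞 K) (s * b i) := by
      conv_rhs => rw [← b.sum_repr s]
      rw [Finset.sum_mul, map_sum]
      simp only [Matrix.mulVec, dotProduct, hT, Algebra.traceMatrix_apply, Algebra.traceForm_apply]
      refine Finset.sum_congr rfl fun j _ => ?_
      rw [smul_mul_assoc, map_smul, smul_eq_mul, mul_comm, mul_comm (b j)]
    rw [h3]
    exact h1 _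
  have h3 : ∀ i, (p : ℤ) ∣ T.det * b.repr s i := by
    intro i
    have h4 : T.det * b.repr s i = (T.adjugate *ᵥ (T *ᵥ (b.repr s))) i := by
      rw [Matrix.mulVec_mulVec, Matrix.adjugate_mul, Matrix.smul_mulVec, Matrix.one_mulVec]
      rfl
    rw [h4]
    exact Finset.dvd_sum fun j _ => (h2 j).mul_left _
  have h4 : ∀ i, (p : ℤ) ∣ b.repr s i := by
    intro i
    rcases hpZ.dvd_or_dvd (h3 i) with h | h
    · rw [hdet] at h
      exact absurd h hd
    · exact h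
  rw [← b.sum_repr s]
  refine Finset.dvd_sum fun i _ => ?_
  obtain ⟨c, hc⟩ := h4 i
  rw [hc, zsmul_eq_mul]
  push_cast
  exact ⟨c * b i, by ring⟩

end Pool.Agent.W7.FH
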