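import Pool.Agent.W7.FH.Fin

/-!
Height inequality from the product formula.
-/

set_option autoImplicit false

namespace Pool.Agent.W7.FH

open NumberField IsDedekindDomain Height

variable {K : Type} [Field K] [NumberField K]

omit [NumberField K] [Field K] in
lemma iSup_three (f : K → ℝ) (a b c : K) :
    (⨆ i : Fin 3, f (![a, b, c] i)) = max (max (f a) (f b)) (f c) := by
  apply le_antisymm
  · apply ciSup_le
    intro i
    fin_cases i
    · exact le_max_of_le_left (le_max_left _ _)
    · exact le_max_of_le_left (le_max_right _ _)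
    · exact le_max_right _ _
  · have hb : BddAbove (Set.range fun i : Fin 3 => f (![a, b, c] i)) := Set.finite_range _ |>.bddAbove
    refine max_le (max_le ?_ ?_) ?_
    · exact le_ciSup hb 0
    · exact le_ciSup hb 1
    · exact le_ciSup hb 2

theorem height_ge {a b c : K} (ha : a ≠ 0) (hb : b ≠ 0) (hc : c ≠ 0) (hab : a + b ≠ 0)
    (v0 : FinitePlace K) {Q : ℝ} (hQ : 0 ≤ Q)
    (h : Q * v0 (a + b) ≤ max (max (v0 a) (v0 b)) (v0 c)) :
    Q ≤ 2 ^ Module.finrank ℚ K * mulHeight ![a, b, c] := by
  classical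
  have hx : ![a, b, c] ≠ 0 := fun h0 => ha (congrFun h0 0)
  have hall : ∀ i : Fin 3, ![a, b, c] i ≠ 0 := by
    intro i
    fin_cases i
    · exact ha
    · exact hb
    · exact hc
  have h1 := NumberField.mulHeight_eq (K := K) hx
  have hfM : (fun v : FinitePlace K => ⨆ i : Fin 3, v (![a, b, c] i)).HasFiniteMulSupport :=
    .iSup fun i => FinitePlace.hasFiniteMulSupport (hall i)
  have hfx : (fun v : FinitePlace K => v (a + b)).HasFiniteMulSupport :=
    FinitePlace.hasFiniteMulSupport hab
  set S : Finset (FinitePlace K) := insert v0 (hfM.toFinset ∪ hfx.toFinset) with hS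
  have e1 : ∏ᶠ v : FinitePlace K, ⨆ i : Fin 3, v (![a, b, c] i) =
      ∏ v ∈ S, ⨆ i : Fin 3, v (![a, b, c] i) := by
    apply finprod_eq_prod_of_mulSupport_subset
    intro w hw
    rw [hS, Finset.coe_insert, Finset.coe_union]
    right; left
    exact Finset.mem_coe.mpr ((Set.Finite.mem_toFinset hfM).mpr hw)
  have e2 : ∏ᶠ v : FinitePlace K, v (a + b) = ∏ v ∈ S, v (a + b) := by
    apply finprod_eq_prod_of_mulSupport_subset
    intro w hw
    rw [hS, Finset.coe_insert, Finset.coe_union]
    right; right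
    exact Finset.mem_coe.mpr ((Set.Finite.mem_toFinset hfx).mpr hw)
  have hpf := prod_abs_eq_one hab
  rw [e2] at hpf
  rw [h1, e1]
  have hfin : Q * ∏ v ∈ S, v (a + b) ≤ ∏ v ∈ S, ⨆ i : Fin 3, v (![a, b, c] i) := by
    rw [← Finset.mul_prod_erase S (fun v : FinitePlace K => v (a + b))
      (Finset.mem_insert_self v0 _), ← Finset.mul_prod_erase S
      (fun v : FinitePlace K => ⨆ i : Fin 3, v (![a, b, c] i)) (Finset.mem_insert_self v0 _),
      ← mul_assoc]
    apply mul_le_mul
    · rw [iSup_three v0 a b c]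
      exact h
    · apply Finset.prod_le_prod (fun v _ => apply_nonneg _ _)
      intro v _
      rw [iSup_three v a b c]
      exact (FinitePlace.add_le v a b).trans (le_max_left _ _)
    · exact Finset.prod_nonneg fun v _ => apply_nonneg _ _
    · rw [iSup_three v0 a b c]
      exact le_max_of_le_right (apply_nonneg _ _)
  have hinf : ∏ w : InfinitePlace K, w (a + b) ^ w.mult ≤
      2 ^ Module.finrank ℚ K * ∏ w : InfinitePlace K, (⨆ i : Fin 3, w (![a, b, c] i)) ^ w.mult := by
    have h2 : (2 : ℝ) ^ Module.finrank ℚ K = ∏ w : InfinitePlace K, (2 : ℝ) ^ w.mult := by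
      rw [Finset.prod_pow_eq_pow_sum, InfinitePlace.sum_mult_eq]
    rw [h2, ← Finset.prod_mul_distrib]
    apply Finset.prod_le_prod (fun w _ => pow_nonneg (apply_nonneg _ _) _)
    intro w _
    rw [← mul_pow]
    apply pow_le_pow_left₀ (apply_nonneg _ _)
    rw [iSup_three w a b c]
    have h3 : w (a + b) ≤ w a + w b := w.1.add_le a b
    have h4 : w a ≤ max (max (w a) (w b)) (w c) := le_max_of_le_left (le_max_left _ _)
    have h5 : w b ≤ max (max (w a) (w b)) (w c) := le_max_of_le_left (le_max_right _ _)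
    linarith
  have hP0 : 0 ≤ ∏ v ∈ S, v (a + b) := Finset.prod_nonneg fun v _ => apply_nonneg _ _
  have hI0 : 0 ≤ ∏ w : InfinitePlace K, w (a + b) ^ w.mult :=
    Finset.prod_nonneg fun w _ => pow_nonneg (apply_nonneg _ _) _
  calc Q = (∏ w : InfinitePlace K, w (a + b) ^ w.mult) * (Q * ∏ v ∈ S, v (a + b)) := by
        rw [mul_left_comm, hpf, mul_one]
    _ ≤ (2 ^ Module.finrank ℚ K * ∏ w : InfinitePlace K, (⨆ i : Fin 3, w (![a, b, c] i)) ^ w.mult) *
          ∏ v ∈ S, ⨆ i : Fin 3, v (![a, b, c] i) :=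
        mul_le_mul hinf hfin (by positivity) (hI0.trans hinf)
    _ = _ := by ring

end Pool.Agent.W7.FH
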