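import Mathlib

/-!
Real analysis for `a ^ p + b ^ p + c ^ p = 0`.
-/

set_option autoImplicit false

namespace Pool.Agent.W7.FH

lemma sub_pow_mono {μ δ : ℝ} (hμ0 : 0 ≤ μ) (hμ : μ ≤ 1) (hδ : 0 ≤ δ) (p : ℕ) :
    (μ + δ) ^ p - μ ^ p ≤ (1 + δ) ^ p - 1 := by
  induction p with
  | zero => simp
  | succ p ih =>
    have h1 : 0 ≤ (μ + δ) ^ p - μ ^ p :=
      sub_nonneg.mpr (pow_le_pow_left₀ hμ0 (by linarith) p)
    have h2 : μ ^ p ≤ 1 := pow_le_one₀ hμ0 hμ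
    have h3 : (μ + δ) ^ (p + 1) - μ ^ (p + 1) = (μ + δ) * ((μ + δ) ^ p - μ ^ p) + δ * μ ^ p := by
      ring
    have h4 : (1 + δ) ^ (p + 1) - 1 = (1 + δ) * ((1 + δ) ^ p - 1) + δ := by ring
    rw [h3, h4]
    have h5 : (μ + δ) * ((μ + δ) ^ p - μ ^ p) ≤ (1 + δ) * ((1 + δ) ^ p - 1) :=
      mul_le_mul (by linarith) ih h1 (by linarith)
    have h6 : δ * μ ^ p ≤ δ * 1 := mul_le_mul_of_nonneg_left h2 hδ
    linarith

lemma r_gt_one {p : ℕ} {t r : ℝ} (ht : 0 < t) (hr : 0 < r) (h : r ^ p = 1 + t ^ p) :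
    1 < r := by
  by_contra hcon
  push Not at hcon
  have h1 : r ^ p ≤ 1 := pow_le_one₀ hr.le hcon
  have h2 : 0 < t ^ p := pow_pos ht p
  linarith

lemma r_gt_t {p : ℕ} {t r : ℝ} (hr : 0 < r) (h : r ^ p = 1 + t ^ p) :
    t < r := by
  by_contra hcon
  push Not at hcon
  have h1 : r ^ p ≤ t ^ p := pow_le_pow_left₀ hr.le hcon p
  linarith

lemma one_add_pow_gt {p : ℕ} (hp : 2 ≤ p) {t : ℝ} (ht : 0 < t) : 1 + t ^ p < (1 + t) ^ p := by
  have h1 := sub_pow_mono (μ := 0) le_rfl zero_le_one ht.le (p - 1)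
  have e : p = (p - 1) + 1 := by omega
  rw [zero_add, zero_pow (by omega), sub_zero] at h1
  rw [e, pow_succ, pow_succ]
  nlinarith [pow_pos ht (p - 1)]

lemma r_lt {p : ℕ} (hp : 2 ≤ p) {t r : ℝ} (ht : 0 < t) (h : r ^ p = 1 + t ^ p) :
    r < 1 + t := by
  by_contra hcon
  push Not at hcon
  have h1 := pow_le_pow_left₀ (by linarith : (0 : ℝ) ≤ 1 + t) hcon p
  have h2 := one_add_pow_gt hp ht
  linarith

/-- `(r - 1) / t` is monotone -/
lemma ratio_mono {p : ℕ} (hp : 2 ≤ p) {t1 r1 t2 r2 : ℝ} (ht1 : 0 < t1) (hr1 : 0 < r1)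
    (h1 : r1 ^ p = 1 + t1 ^ p) (hr2 : 0 < r2) (h2 : r2 ^ p = 1 + t2 ^ p) (hlt : t1 < t2) :
    (r1 - 1) * t2 ≤ (r2 - 1) * t1 := by
  have ht2 : 0 < t2 := ht1.trans hlt
  have h3 := r_gt_one ht1 hr1 h1
  set μ := t1 / t2 with hμ
  have hμ0 : 0 < μ := by positivity
  have hμ1 : μ ≤ 1 := by rw [hμ, div_le_one ht2]; exact hlt.le
  have h4 := sub_pow_mono hμ0.le hμ1 (by linarith : (0 : ℝ) ≤ r1 - 1) p
  have h5 : (1 + (r1 - 1)) ^ p - 1 = t1 ^ p := by
    rw [add_sub_cancel, h1]; ring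
  rw [h5] at h4
  -- (μ + δ) ^ p ≤ μ ^ p + t1 ^ p = μ ^ p * r2 ^ p
  have h6 : (μ + (r1 - 1)) ^ p ≤ (μ * r2) ^ p := by
    rw [mul_pow, h2]
    have : μ ^ p * (1 + t2 ^ p) = μ ^ p + t1 ^ p := by
      rw [mul_add, mul_one, ← mul_pow, hμ, div_mul_cancel₀ _ ht2.ne']
    linarith
  have h7 : μ + (r1 - 1) ≤ μ * r2 := le_of_pow_le_pow_left₀ (by omega) (by positivity) h6
  have h8 : t2 * (μ + (r1 - 1)) ≤ t2 * (μ * r2) := mul_le_mul_of_nonneg_left h7 ht2.le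
  have h9 : t2 * μ = t1 := by rw [hμ]; field_simp
  nlinarith

lemma t_eq {p : ℕ} (hp : 2 ≤ p) {t1 r1 t2 r2 : ℝ} (ht1 : 0 < t1) (hr1 : 0 < r1)
    (h1 : r1 ^ p = 1 + t1 ^ p) (ht2 : 0 < t2) (hr2 : 0 < r2) (h2 : r2 ^ p = 1 + t2 ^ p)
    (h : (1 + t1) * (r2 - 1) = (r1 - 1) * (1 + t2)) : t1 = t2 := by
  have h3 := r_gt_one ht1 hr1 h1
  have h4 := r_gt_one ht2 hr2 h2
  rcases lt_trichotomy t1 t2 with hlt | heq | hgt
  · exfalso
    have h5 := ratio_mono hp ht1 hr1 h1 hr2 h2 hlt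
    -- (1+t1)(r2-1) t1 >= (1+t1) t2 (r1-1) > (1+t2) t1 (r1-1)
    nlinarith [mul_le_mul_of_nonneg_left h5 (by linarith : (0 : ℝ) ≤ 1 + t1),
      mul_pos (sub_pos.mpr hlt) (sub_pos.mpr h3)]
  · exact heq
  · exfalso
    have h5 := ratio_mono hp ht2 hr2 h2 hr1 h1 hgt
    nlinarith [mul_le_mul_of_nonneg_left h5 (by linarith : (0 : ℝ) ≤ 1 + t2),
      mul_pos (sub_pos.mpr hgt) (sub_pos.mpr h4)]

/-- sign analysis -/
lemma signs {p : ℕ} (hp : 2 ≤ p) (hodd : Odd p) {a b c : ℝ} (ha : a ≠ 0) (hb : b ≠ 0) (hc : c ≠ 0)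
    (h : a ^ p + b ^ p + c ^ p = 0) (h1 : |c + a| ≤ |b + c|) (h2 : |a + b| ≤ |b + c|) :
    ∃ t r : ℝ, 0 < t ∧ 0 < r ∧ r ^ p = 1 + t ^ p ∧ b = t * c ∧ a = -(r * c) := by
  -- divide by `c`
  obtain ⟨x, hx⟩ : ∃ x, a = x * c := ⟨a / c, by field_simp⟩
  obtain ⟨y, hy⟩ : ∃ y, b = y * c := ⟨b / c, by field_simp⟩
  have hx0 : x ≠ 0 := by rintro rfl; simp at hx; exact ha hx
  have hy0 : y ≠ 0 := by rintro rfl; simp at hy; exact hb hy
  have hcp : c ^ p ≠ 0 := pow_ne_zero p hc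
  have e1 : x ^ p + y ^ p + 1 = 0 := by
    have : (x ^ p + y ^ p + 1) * c ^ p = 0 := by
      rw [hx, hy, mul_pow, mul_pow] at h
      linear_combination h
    rcases mul_eq_zero.1 this with h3 | h3
    · exact h3
    · exact absurd h3 hcp
  have hc' : 0 < |c| := abs_pos.mpr hc
  have e2 : |1 + x| ≤ |y + 1| := by
    have h3 : c + a = (1 + x) * c := by rw [hx]; ring
    have h4 : b + c = (y + 1) * c := by rw [hy]; ring
    rw [h3, h4, abs_mul, abs_mul] at h1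
    exact le_of_mul_le_mul_right h1 hc'
  have e3 : |x + y| ≤ |y + 1| := by
    have h3 : a + b = (x + y) * c := by rw [hx, hy]; ring
    have h4 : b + c = (y + 1) * c := by rw [hy]; ring
    rw [h3, h4, abs_mul, abs_mul] at h2
    exact le_of_mul_le_mul_right h2 hc'
  rcases lt_or_gt_of_ne hy0 with hy' | hy'
  · exfalso
    -- `y = -s`, `s > 0`
    obtain ⟨s, rfl⟩ : ∃ s, y = -s := ⟨-y, by ring⟩
    have hs : 0 < s := by linarith
    rw [hodd.neg_pow] at e1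
    rcases lt_or_gt_of_ne hx0 with hx' | hx'
    · -- x = -w : w ^ p + s ^ p = 1
      obtain ⟨w, rfl⟩ : ∃ w, x = -w := ⟨-x, by ring⟩
      have hw : 0 < w := by linarith
      rw [hodd.neg_pow] at e1
      -- |x+y| = w + s > 1 - s ... |y+1| = |1 - s|, s < 1
      have h3 : s < 1 := by
        by_contra hcon
        push Not at hcon
        have := one_le_pow₀ (n := p) hcon
        have := pow_pos hw p
        linarith
      rw [show -w + -s = -(w + s) by ring, abs_neg, abs_of_pos (by linarith : 0 < w + s),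
        abs_of_pos (by linarith : 0 < -s + 1)] at e3
      -- w + 2 s <= 1 ; but w + s > 1 since (w+s)^p > w^p + s^p = 1
      have h4 : 1 < w + s := by
        by_contra hcon
        push Not at hcon
        -- scale : w + s ≤ 1
        have h5 : (1 + s / w) ^ p > 1 + (s / w) ^ p := one_add_pow_gt hp (by positivity)
        have h6 : (w + s) ^ p = w ^ p * (1 + s / w) ^ p := by
          rw [← mul_pow]; congr 1; field_simp
        have h7 : w ^ p * (1 + (s / w) ^ p) = w ^ p + s ^ p := by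
          rw [mul_add, mul_one, ← mul_pow]; congr 2; field_simp
        have h8 : (w + s) ^ p ≤ 1 := pow_le_one₀ (by linarith) hcon
        have h9 : 0 < w ^ p := pow_pos hw p
        have h10 := mul_lt_mul_of_pos_left h5 h9
        linarith
      linarith
    · -- x > 0 : x ^ p + 1 = s ^ p
      have h3 : s ^ p = 1 + x ^ p := by linarith
      have h4 := r_gt_one hx' hs h3
      have h5 := r_lt hp hx' h3
      rw [abs_of_pos (by linarith : 0 < 1 + x), show -s + 1 = -(s - 1) by ring, abs_neg,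
        abs_of_pos (by linarith : 0 < s - 1)] at e2
      linarith
  · rcases lt_or_gt_of_ne hx0 with hx' | hx'
    · refine ⟨y, -x, hy', by linarith, ?_, hy, by rw [hx]; ring⟩
      rw [hodd.neg_pow]
      linarith
    · exfalso
      have := pow_pos hx' p
      have := pow_pos hy' p
      linarith

/-- `x y ∣ (x + y) ^ n - x ^ n - y ^ n` -/
lemma mul_dvd_add_pow {R : Type} [CommRing R] (x y : R) {n : ℕ} (hn : 1 ≤ n) :
    x * y ∣ (x + y) ^ n - x ^ n - y ^ n := by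
  induction n, hn using Nat.le_induction with
  | base => simp
  | succ n hn ih =>
    obtain ⟨m, rfl⟩ : ∃ m, n = m + 1 := ⟨n - 1, by omega⟩
    have h1 : (x + y) ^ (m + 1 + 1) - x ^ (m + 1 + 1) - y ^ (m + 1 + 1) =
        (x + y) * ((x + y) ^ (m + 1) - x ^ (m + 1) - y ^ (m + 1)) + x * y * (x ^ m + y ^ m) := by
      ring
    rw [h1]
    exact dvd_add (ih.mul_left _) (dvd_mul_right _ _)

/-- the arithmetic contradiction: `k ^ n ≡ 1` modulo `k ^ 2 - k + 1`, `n` odd -/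
lemma arith_contra {n : ℕ} (hodd : Odd n) {k : ℤ} (hk : 2 ≤ k)
    (h : k ^ 2 - k + 1 ∣ 1 - k ^ n) : False := by
  obtain ⟨N, hN⟩ : ∃ N : ℤ, N = k ^ 2 - k + 1 := ⟨_, rfl⟩
  rw [← hN] at h
  have hN3 : 3 ≤ N := by nlinarith
  have hkN : k - 1 < N := by nlinarith
  have h3 : k ^ 3 ≡ -1 [ZMOD N] := by
    rw [Int.modEq_iff_dvd]
    refine ⟨-(k + 1), ?_⟩
    rw [hN]; ring
  have h6 : k ^ 6 ≡ 1 [ZMOD N] := by
    have : k ^ 6 = k ^ 3 * k ^ 3 := by ring
    rw [this]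
    simpa using h3.mul h3
  have hn1 : k ^ n ≡ 1 [ZMOD N] := (Int.modEq_iff_dvd).mpr h
  have hdecomp : k ^ n ≡ k ^ (n % 6) [ZMOD N] := by
    conv_lhs => rw [← Nat.div_add_mod n 6, pow_add, pow_mul]
    have := (h6.pow (n / 6)).mul_right (k ^ (n % 6))
    simpa using this
  have h7 : k ^ (n % 6) ≡ 1 [ZMOD N] := hdecomp.symm.trans hn1
  have hmod : n % 6 = 1 ∨ n % 6 = 3 ∨ n % 6 = 5 := by
    obtain ⟨j, hj⟩ := hodd
    omega
  rcases hmod with h8 | h8 | h8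
  · rw [h8, pow_one] at h7
    have h9 : N ∣ k - 1 := (Int.modEq_iff_dvd).mp h7.symm
    have := Int.le_of_dvd (by omega) h9
    omega
  · rw [h8] at h7
    have h9 : (1 : ℤ) ≡ -1 [ZMOD N] := h7.symm.trans h3
    have h10 : N ∣ -1 - 1 := (Int.modEq_iff_dvd).mp h9
    have h11 : N ∣ 2 := by
      rw [show (-1 - 1 : ℤ) = -2 by norm_num, dvd_neg] at h10
      exact h10
    have := Int.le_of_dvd (by norm_num) h11
    omega
  · rw [h8] at h7
    have h9 : k ^ 6 ≡ k [ZMOD N] := by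
      have : k ^ 6 = k ^ 5 * k := by ring
      rw [this]
      simpa using h7.mul_right k
    have h10 : N ∣ k - 1 := (Int.modEq_iff_dvd).mp (h6.symm.trans h9)
    have := Int.le_of_dvd (by omega) h10
    omega

end Pool.Agent.W7.FH
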