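import Pool.Agent.W7.FH.Un
import Pool.Agent.W7.FH.Re

/-!
Quadratic fields: the case in which `a + b`, `b + c`, `c + a` are locally of maximal absolute value.
-/

set_option autoImplicit false

namespace Pool.Agent.W7.FH

open NumberField IsDedekindDomain Height

variable {K : Type} [Field K] [NumberField K]

lemma abs_norm_eq_one {x : K} (hx : x ≠ 0) (h : ∀ v : FinitePlace K, v x = 1) :
    |Algebra.norm ℚ x| = 1 := by
  have h1 := FinitePlace.prod_eq_inv_abs_norm hx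
  have h2 : ∏ᶠ w : FinitePlace K, w x = 1 := finprod_eq_one_of_forall_eq_one h
  rw [h2] at h1
  have h3 : (|Algebra.norm ℚ x|⁻¹ : ℚ) = 1 := by exact_mod_cast h1.symm
  rwa [inv_eq_one] at h3

/-- a rational integer divisible by `p` in the ring of integers is divisible by `p` -/
lemma int_dvd {p : ℕ} (m : ℤ) (w : 𝓞 K) (h : (m : 𝓞 K) = (p : 𝓞 K) * w) : (p : ℤ) ∣ m := by
  have h1 := congrArg (Algebra.norm ℤ) h
  rw [map_mul] at h1
  have e1 : (m : 𝓞 K) = algebraMap ℤ (𝓞 K) m := by simp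
  have e2 : (p : 𝓞 K) = algebraMap ℤ (𝓞 K) (p : ℤ) := by simp
  rw [e1, e2, Algebra.norm_algebraMap, Algebra.norm_algebraMap] at h1
  have hn : Module.finrank ℤ (𝓞 K) ≠ 0 := Module.finrank_pos.ne'
  have h2 : (p : ℤ) ^ Module.finrank ℤ (𝓞 K) ∣ m ^ Module.finrank ℤ (𝓞 K) := ⟨_, h1⟩
  exact (Int.pow_dvd_pow_iff hn).1 h2

/-- the hypothesis of the unit case -/
def UnitCase (a b c : K) : Prop :=
  ∀ v : FinitePlace K, v (a + b) = mx v a b c ∧ v (b + c) = mx v a b c ∧ v (c + a) = mx v a b c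

lemma UnitCase.rot {a b c : K} (h : UnitCase a b c) : UnitCase b c a := by
  intro v
  obtain ⟨h1, h2, h3⟩ := h v
  rw [mx_rot]
  exact ⟨h2, h3, h1⟩

lemma mx_swap (v : FinitePlace K) (a b c : K) : mx v b a c = mx v a b c := by
  unfold mx
  rw [max_comm (v a)]

lemma UnitCase.swap {a b c : K} (h : UnitCase a b c) : UnitCase b a c := by
  intro v
  obtain ⟨h1, h2, h3⟩ := h v
  rw [mx_swap, add_comm b a, add_comm a c, add_comm c b]
  exact ⟨h1, h3, h2⟩

lemma le_mx1 (v : FinitePlace K) (a b c : K) : v a ≤ mx v a b c :=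
  le_max_of_le_left (le_max_left _ _)
lemma le_mx2 (v : FinitePlace K) (a b c : K) : v b ≤ mx v a b c :=
  le_max_of_le_left (le_max_right _ _)
lemma le_mx3 (v : FinitePlace K) (a b c : K) : v c ≤ mx v a b c := le_max_right _ _

lemma isIntegral_div (x z : K) (hz : z ≠ 0) (h : ∀ v : FinitePlace K, v x ≤ v z) :
    IsIntegral ℤ (x / z) := by
  apply isIntegral_of_le
  intro v
  rw [map_div₀, div_le_one (FinitePlace.pos_iff.mpr hz)]
  exact h v

/-- nonzero integral elements have norm at least one -/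
lemma one_le_abs_norm {x : K} (hx : x ≠ 0) (hi : IsIntegral ℤ x) :
    1 ≤ |Algebra.norm ℚ x| := by
  obtain ⟨y, hy⟩ : ∃ y : 𝓞 K, algebraMap (𝓞 K) K y = x := ⟨⟨_, hi⟩, rfl⟩
  have hy0 : y ≠ 0 := by
    rintro rfl
    rw [map_zero] at hy
    exact hx hy.symm
  have h1 : Algebra.norm ℤ y ≠ 0 := fun h => hy0 (Algebra.norm_eq_zero_iff.1 h)
  have h2 : Algebra.norm ℚ x = ((Algebra.norm ℤ y : ℤ) : ℚ) := by
    rw [← hy]
    exact (Algebra.coe_norm_int y).symm
  rw [h2]
  exact_mod_cast Int.one_le_abs h1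

/-- the parallelogram identity -/
lemma parallelogram (α β γ : ℂ) :
    ‖α + β‖ ^ 2 + ‖β + γ‖ ^ 2 + ‖γ + α‖ ^ 2 =
      ‖α + β + γ‖ ^ 2 + ‖α‖ ^ 2 + ‖β‖ ^ 2 + ‖γ‖ ^ 2 := by
  simp only [← Complex.normSq_eq_norm_sq, Complex.normSq_apply, Complex.add_re, Complex.add_im]
  ring

/-- complex quadratic fields -/
theorem complex_case {a b c : K} (ha : a ≠ 0) (hb : b ≠ 0) (hc : c ≠ 0)
    (hab : a + b ≠ 0) (hbc : b + c ≠ 0) (hca : c + a ≠ 0)
    (hU : UnitCase a b c) (σ τ : K →ₐ[ℚ] ℂ)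
    (hN : ∀ x : K, ((Algebra.norm ℚ x : ℚ) : ℂ) = σ x * τ x) (hc' : ∀ x, ‖τ x‖ = ‖σ x‖) :
    a + b + c = 0 ∧ a ^ 2 + a * b + b ^ 2 = 0 := by
  have hsq : ∀ x : K, ((|Algebra.norm ℚ x| : ℚ) : ℝ) = ‖σ x‖ ^ 2 := by
    intro x
    have h2 := congrArg norm (hN x)
    rw [norm_mul, hc', Complex.norm_ratCast] at h2
    rw [Rat.cast_abs, h2]
    ring
  have hunit : ∀ x : K, x ≠ 0 → (∀ v : FinitePlace K, v x = 1) → ‖σ x‖ = 1 := by
    intro x hx hv
    have h1 := abs_norm_eq_one hx hv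
    have h2 := hsq x
    rw [h1, Rat.cast_one] at h2
    nlinarith [norm_nonneg (σ x)]
  have hint : ∀ x : K, x ≠ 0 → IsIntegral ℤ x → 1 ≤ ‖σ x‖ ^ 2 := by
    intro x hx hi
    rw [← hsq]
    exact_mod_cast one_le_abs_norm hx hi
  have hx : ‖σ ((a + b) / (c + a))‖ = 1 := by
    apply hunit _ (div_ne_zero hab hca)
    intro v
    obtain ⟨h1, h2, h3⟩ := hU v
    rw [map_div₀, h1, ← h3, div_self (FinitePlace.pos_iff.mpr hca).ne']
  have hy : ‖σ ((b + c) / (c + a))‖ = 1 := by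
    apply hunit _ (div_ne_zero hbc hca)
    intro v
    obtain ⟨h1, h2, h3⟩ := hU v
    rw [map_div₀, h2, ← h3, div_self (FinitePlace.pos_iff.mpr hca).ne']
  -- integral elements
  have iA : IsIntegral ℤ (a / (c + a)) := isIntegral_div _ _ hca fun v => by
    rw [(hU v).2.2]; exact le_mx1 v a b c
  have iB : IsIntegral ℤ (b / (c + a)) := isIntegral_div _ _ hca fun v => by
    rw [(hU v).2.2]; exact le_mx2 v a b c
  have iC : IsIntegral ℤ (c / (c + a)) := isIntegral_div _ _ hca fun v => by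
    rw [(hU v).2.2]; exact le_mx3 v a b c
  have nA := hint _ (div_ne_zero ha hca) iA
  have nB := hint _ (div_ne_zero hb hca) iB
  have nC := hint _ (div_ne_zero hc hca) iC
  have hpar := parallelogram (σ (a / (c + a))) (σ (b / (c + a))) (σ (c / (c + a)))
  rw [← map_add, ← map_add, ← map_add, ← map_add, ← add_div, ← add_div, ← add_div, ← add_div,
    hx, hy, div_self hca, map_one, norm_one] at hpar
  have habc : a + b + c = 0 := by
    have h1 : ‖σ ((a + b + c) / (c + a))‖ ^ 2 ≤ 0 := by linarith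
    have h2 : ‖σ ((a + b + c) / (c + a))‖ = 0 := by
      nlinarith [norm_nonneg (σ ((a + b + c) / (c + a)))]
    rw [norm_eq_zero, map_eq_zero, div_eq_zero_iff] at h2
    exact h2.resolve_right hca
  refine ⟨habc, ?_⟩
  -- `c + a = - b`
  have e1 : c + a = -b := by linear_combination habc
  have e2 : a + b = -c := by linear_combination habc
  have e3 : b + c = -a := by linear_combination habc
  have e4 : (b + c) / (c + a) = a / b := by rw [e1, e3, neg_div_neg_eq]
  have e5 : (a + b) / (c + a) = -1 - a / b := by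
    rw [e1]
    field_simp
    ring
  rw [e4] at hy
  rw [e5] at hx
  obtain ⟨z, hz⟩ : ∃ z, z = σ (a / b) := ⟨_, rfl⟩
  have hx' : ‖-1 - z‖ = 1 := by
    rw [map_sub, map_neg, map_one, ← hz] at hx
    exact hx
  rw [← hz] at hy
  have h1 : z * (starRingEnd ℂ) z = 1 := by
    rw [Complex.mul_conj, Complex.normSq_eq_norm_sq, hy]; simp
  have h2 : (-1 - z) * (starRingEnd ℂ) (-1 - z) = 1 := by
    rw [Complex.mul_conj, Complex.normSq_eq_norm_sq, hx']; simp
  rw [map_sub, map_neg, map_one] at h2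
  have h3 : z ^ 2 + z + 1 = 0 := by linear_combination z * h2 - (z + 1) * h1
  have h4 : σ ((a / b) ^ 2 + a / b + 1) = 0 := by
    rw [map_add, map_add, map_pow, map_one, ← hz]
    exact h3
  have h5 := (map_eq_zero σ).1 h4
  field_simp at h5
  linear_combination h5

end Pool.Agent.W7.FH
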