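import Pool.Agent.W7.FH.Rq

/-!
Fermat's equation over quadratic fields: main theorem.
-/

set_option autoImplicit false

namespace Pool.Agent.W7.FH

open NumberField IsDedekindDomain Height

variable {K : Type} [Field K] [NumberField K]

theorem real_case {p : ℕ} (hp2 : 2 ≤ p) (hodd : Odd p) {a b c : K}
    (ha : a ≠ 0) (hb : b ≠ 0) (hc : c ≠ 0)
    (h : a ^ p + b ^ p + c ^ p = 0) (hab : a + b ≠ 0) (hbc : b + c ≠ 0) (hca : c + a ≠ 0)
    (hU : UnitCase a b c) (f g : K →+* ℝ)
    (hN : ∀ x : K, ((Algebra.norm ℚ x : ℚ) : ℝ) = f x * g x)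
    (hT : ∀ x : K, ((Algebra.trace ℚ K x : ℚ) : ℝ) = f x + g x) : False := by
  have hba : b + a ≠ 0 := by rwa [add_comm]
  have hcb : c + b ≠ 0 := by rwa [add_comm]
  have hac : a + c ≠ 0 := by rwa [add_comm]
  have c1 : c + b = b + c := add_comm _ _
  have c2 : a + c = c + a := add_comm _ _
  have c3 : b + a = a + b := add_comm _ _
  rcases le_total |f (a + b)| |f (b + c)| with h1 | h1
  · rcases le_total |f (c + a)| |f (a + b)| with h2 | h2
    · -- Z ≤ X ≤ Y
      exact real_case_ord hp2 hodd ha hb hc h hab hbc hca hU f g hN hT h2 h1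
    · rcases le_total |f (c + a)| |f (b + c)| with h3 | h3
      · -- X ≤ Z ≤ Y : (a, c, b)
        refine real_case_ord hp2 hodd ha hc hb (by linear_combination h) hac hcb hba
          hU.rot.rot.swap f g hN hT ?_ ?_
        · rw [c3, c2]; exact h2
        · rw [c1, c2]; exact h3
      · -- X ≤ Y ≤ Z : (b, c, a)
        refine real_case_ord hp2 hodd hb hc ha (by linear_combination h) hbc hca hab
          hU.rot f g hN hT h1 h3
  · rcases le_total |f (c + a)| |f (b + c)| with h2 | h2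
    · -- Z ≤ Y ≤ X : (c, b, a)
      refine real_case_ord hp2 hodd hc hb ha (by linear_combination h) hcb hba hac
        hU.rot.swap f g hN hT ?_ ?_
      · rw [c1, c2]; exact h2
      · rw [c1, c3]; exact h1
    · rcases le_total |f (c + a)| |f (a + b)| with h3 | h3
      · -- Y ≤ Z ≤ X : (c, a, b)
        exact real_case_ord hp2 hodd hc ha hb (by linear_combination h) hca hab hbc
          hU.rot.rot f g hN hT h2 h3
      · -- Y ≤ X ≤ Z : (b, a, c)
        refine real_case_ord hp2 hodd hb ha hc (by linear_combination h) hba hac hcb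
          hU.swap f g hN hT ?_ ?_
        · rw [c1, c3]; exact h1
        · rw [c2, c3]; exact h3

theorem unit_case {p : ℕ} (hK : Module.finrank ℚ K = 2) (hp2 : 2 ≤ p) (hodd : Odd p)
    {a b c : K} (ha : a ≠ 0) (hb : b ≠ 0) (hc : c ≠ 0)
    (h : a ^ p + b ^ p + c ^ p = 0) (hU : UnitCase a b c) :
    a + b + c = 0 ∧ a ^ 2 + a * b + b ^ 2 = 0 := by
  classical
  have hab := add_ne_zero_of_fermat hodd hc h
  have hbc := add_ne_zero_of_fermat (a := b) (b := c) (c := a) hodd ha (by linear_combination h)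
  have hca := add_ne_zero_of_fermat (a := c) (b := a) (c := b) hodd hb (by linear_combination h)
  have hcard : (Finset.univ : Finset (K →ₐ[ℚ] ℂ)).card = 2 := by
    rw [Finset.card_univ, AlgHom.card, hK]
  obtain ⟨σ, τ, hστ, huniv⟩ := Finset.card_eq_two.1 hcard
  have hN : ∀ x : K, ((Algebra.norm ℚ x : ℚ) : ℂ) = σ x * τ x := by
    intro x
    have := Algebra.norm_eq_prod_embeddings ℚ ℂ x
    rw [huniv, Finset.prod_pair hστ] at this
    exact this
  have hT : ∀ x : K, ((Algebra.trace ℚ K x : ℚ) : ℂ) = σ x + τ x := by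
    intro x
    have := trace_eq_sum_embeddings (K := ℚ) ℂ (x := x)
    rw [huniv, Finset.sum_pair hστ] at this
    exact this
  -- complex conjugation
  let cj : ℂ →ₐ[ℚ] ℂ := (Complex.conjAe.toAlgHom).restrictScalars ℚ
  have hcj : ∀ z, cj z = (starRingEnd ℂ) z := fun z => rfl
  have hmem : ∀ ρ : K →ₐ[ℚ] ℂ, ρ = σ ∨ ρ = τ := by
    intro ρ
    have : ρ ∈ (Finset.univ : Finset (K →ₐ[ℚ] ℂ)) := Finset.mem_univ _
    rw [huniv, Finset.mem_insert, Finset.mem_singleton] at this
    exact this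
  rcases hmem (cj.comp σ) with hσ | hσ
  · -- `σ` is real
    rcases hmem (cj.comp τ) with hτ | hτ
    · exfalso
      apply hστ
      ext x
      have h1 : (starRingEnd ℂ) (τ x) = σ x := by
        rw [← hcj, ← AlgHom.comp_apply, hτ]
      have h2 : (starRingEnd ℂ) (σ x) = σ x := by
        rw [← hcj, ← AlgHom.comp_apply, hσ]
      have h3 : (starRingEnd ℂ) ((starRingEnd ℂ) (τ x)) = τ x := Complex.conj_conj _
      rw [← h3, h1, h2]
    · exfalso
      have hσr : ComplexEmbedding.IsReal (σ : K →+* ℂ) := by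
        rw [ComplexEmbedding.isReal_iff]
        ext x
        have h2 : (starRingEnd ℂ) (σ x) = σ x := by
          rw [← hcj, ← AlgHom.comp_apply, hσ]
        exact h2
      have hτr : ComplexEmbedding.IsReal (τ : K →+* ℂ) := by
        rw [ComplexEmbedding.isReal_iff]
        ext x
        have h2 : (starRingEnd ℂ) (τ x) = τ x := by
          rw [← hcj, ← AlgHom.comp_apply, hτ]
        exact h2
      refine real_case hp2 hodd ha hb hc h hab hbc hca hU hσr.embedding hτr.embedding ?_ ?_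
      · intro x
        have h1 := hN x
        have h2 : ((hσr.embedding x : ℝ) : ℂ) = σ x := ComplexEmbedding.IsReal.coe_embedding_apply hσr x
        have h3 : ((hτr.embedding x : ℝ) : ℂ) = τ x := ComplexEmbedding.IsReal.coe_embedding_apply hτr x
        rw [← h2, ← h3] at h1
        exact_mod_cast h1
      · intro x
        have h1 := hT x
        have h2 : ((hσr.embedding x : ℝ) : ℂ) = σ x := ComplexEmbedding.IsReal.coe_embedding_apply hσr x
        have h3 : ((hτr.embedding x : ℝ) : ℂ) = τ x := ComplexEmbedding.IsReal.coe_embedding_apply hτr x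
        rw [← h2, ← h3] at h1
        exact_mod_cast h1
  · refine complex_case ha hb hc hab hbc hca hU σ τ hN ?_
    intro x
    rw [← hσ, AlgHom.comp_apply, hcj, Complex.norm_conj]

lemma prime_gt_three {n : ℕ} (h6 : Nat.Coprime n 6) (p : ℕ) (hp : p.Prime) (hpn : p ∣ n) :
    2 + 1 < p := by
  have h1 : ¬ p ∣ 6 := fun h => by
    have := Nat.dvd_gcd hpn h
    rw [Nat.Coprime] at h6
    rw [h6] at this
    exact hp.one_lt.ne' (Nat.dvd_one.1 this)
  have h2 := hp.two_le
  by_contra hcon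
  have h3 : p = 2 ∨ p = 3 := by omega
  rcases h3 with rfl | rfl
  · exact h1 (by norm_num)
  · exact h1 (by norm_num)

/-- main theorem, symmetric form -/
theorem quad_main {n : ℕ} (hK : Module.finrank ℚ K = 2) (h5 : 5 ≤ n) (h6 : Nat.Coprime n 6)
    {a b c : K} (ha : a ≠ 0) (hb : b ≠ 0) (hc : c ≠ 0)
    (h : a ^ n + b ^ n + c ^ n = 0) (hnt : ¬ (a + b + c = 0 ∧ a ^ 2 + a * b + b ^ 2 = 0)) :
    (∃ v : FinitePlace K, v (a + b) < mx v a b c ∨ v (b + c) < mx v a b c ∨
      v (c + a) < mx v a b c) ∧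
    ∀ Q : ℝ, 0 ≤ Q → (∀ v : FinitePlace K, Q ≤ (nrm v : ℝ) ^ n) →
      Q * (n : ℝ) ^ 2 ≤ (n.minFac : ℝ) ^ n → Q ≤ 4 * mulHeight ![a, b, c] := by
  have hm : ∀ p : ℕ, p.Prime → p ∣ n → Module.finrank ℚ K + 1 < p := by
    rw [hK]; exact prime_gt_three h6
  have hodd : Odd n := odd_of_big Module.finrank_pos hm
  constructor
  · by_contra hcon
    push Not at hcon
    apply hnt
    apply unit_case hK (by omega) hodd ha hb hc h
    intro v
    obtain ⟨h1, h2, h3⟩ := hcon v
    refine ⟨le_antisymm ?_ h1, le_antisymm ?_ h2, le_antisymm ?_ h3⟩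
    · exact (FinitePlace.add_le v a b).trans (max_le (le_mx1 v a b c) (le_mx2 v a b c))
    · exact (FinitePlace.add_le v b c).trans (max_le (le_mx2 v a b c) (le_mx3 v a b c))
    · exact (FinitePlace.add_le v c a).trans (max_le (le_mx3 v a b c) (le_mx1 v a b c))
  · intro Q hQ0 hQ1 hQ2
    by_contra hcon
    push Not at hcon
    apply hnt
    apply unit_case hK (by omega) hodd ha hb hc h
    intro v
    exact units_of_small (by omega) hm ha hb hc h hQ0 hQ1 (by rw [hK]; exact hQ2)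
      (by rw [hK]; norm_num; exact hcon) v

lemma pow_bound5 {n : ℕ} (hn : 5 ≤ n) : 2 ^ n * n ^ 2 ≤ 5 ^ n := by
  induction n, hn using Nat.le_induction with
  | base => norm_num
  | succ n hn ih =>
    have h1 : 2 * (n + 1) ^ 2 ≤ 5 * n ^ 2 := by nlinarith
    calc 2 ^ (n + 1) * (n + 1) ^ 2 = 2 ^ n * (2 * (n + 1) ^ 2) := by ring
      _ ≤ 2 ^ n * (5 * n ^ 2) := Nat.mul_le_mul_left _ h1
      _ = 5 * (2 ^ n * n ^ 2) := by ring
      _ ≤ 5 * 5 ^ n := Nat.mul_le_mul_left _ ih
      _ = 5 ^ (n + 1) := by ring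

lemma pow_bound7 {n : ℕ} (hn : 7 ≤ n) : 4 ^ n * n ^ 2 ≤ n ^ n := by
  obtain ⟨m, rfl⟩ : ∃ m, n = m + 2 := ⟨n - 2, by omega⟩
  rw [pow_add (m + 2) m 2]
  apply Nat.mul_le_mul_right
  rcases (show m = 5 ∨ 6 ≤ m by omega) with rfl | hm
  · norm_num
  · have h1 : 4 ^ (m + 2) ≤ 8 ^ m := by
      have : 8 ^ m = 4 ^ m * 2 ^ m := by rw [← mul_pow]; norm_num
      rw [this, pow_add]
      apply Nat.mul_le_mul_left
      calc 4 ^ 2 ≤ 2 ^ 6 := by norm_num
        _ ≤ 2 ^ m := Nat.pow_le_pow_right (by norm_num) hm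
    exact h1.trans (Nat.pow_le_pow_left (by omega) m)

/-- trivial solutions -/
lemma trivial_form {x y z : K} (hx : x ≠ 0) (h1 : x + y + -z = 0)
    (h2 : x ^ 2 + x * y + y ^ 2 = 0) :
    ∃ ζ : K, IsPrimitiveRoot ζ 6 ∧ y = x * ζ ^ 2 ∧ z = x * ζ := by
  have hz : z = x + y := by linear_combination -h1
  have h3 : (z / x) ^ 2 - z / x + 1 = 0 := by
    rw [hz]
    field_simp
    linear_combination h2
  refine ⟨z / x, ?_, ?_, by field_simp⟩
  · have : NeZero ((6 : ℕ) : K) := ⟨by norm_num⟩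
    rw [← Polynomial.isRoot_cyclotomic_iff, Polynomial.cyclotomic_six]
    simp only [Polynomial.IsRoot.def, Polynomial.eval_add, Polynomial.eval_sub,
      Polynomial.eval_pow, Polynomial.eval_X, Polynomial.eval_one]
    exact h3
  · have h4 : (z / x) ^ 2 = z / x - 1 := by linear_combination h3
    rw [h4, hz]
    field_simp
    ring

/-- main theorem -/
theorem quad_final (hK : Module.finrank ℚ K = 2) (n : ℕ) (h5 : 5 ≤ n) (h6 : Nat.Coprime n 6)
    (x y z : K) (h : x ^ n + y ^ n = z ^ n) (hx : x ≠ 0) (hy : y ≠ 0) (hz : z ≠ 0) :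
    (∃ ζ : K, IsPrimitiveRoot ζ 6 ∧ y = x * ζ ^ 2 ∧ z = x * ζ) ∨
    ((∃ v : FinitePlace K, v (x + y) < max (max (v x) (v y)) (v z) ∨
        v (z - x) < max (max (v x) (v y)) (v z) ∨ v (z - y) < max (max (v x) (v y)) (v z)) ∧
      (2 : ℝ) ^ (n - 2) ≤ Height.mulHeight ![x, y, z] ∧
      (n.Prime → 7 ≤ n → ∀ q : ℕ, q ≤ 4 →
        (∀ P : Ideal (𝓞 K), P.IsPrime → P ≠ ⊥ → q ≤ Ideal.absNorm P) →
        (q : ℝ) ^ n ≤ 4 * Height.mulHeight ![x, y, z])) := by
  have hm : ∀ p : ℕ, p.Prime → p ∣ n → Module.finrank ℚ K + 1 < p := by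
    rw [hK]; exact prime_gt_three h6
  have hodd : Odd n := odd_of_big Module.finrank_pos hm
  have h' : x ^ n + y ^ n + (-z) ^ n = 0 := by
    rw [hodd.neg_pow]
    linear_combination h
  by_cases htriv : x + y + -z = 0 ∧ x ^ 2 + x * y + y ^ 2 = 0
  · left
    exact trivial_form hx htriv.1 htriv.2
  right
  obtain ⟨⟨v, hv⟩, hQ⟩ := quad_main hK h5 h6 hx hy (neg_ne_zero.mpr hz) h' htriv
  rw [mulHeight_neg_last x y z hx] at hQ
  refine ⟨⟨v, ?_⟩, ?_, ?_⟩
  · have e1 : mx v x y (-z) = max (max (v x) (v y)) (v z) := by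
      unfold mx; rw [map_neg_eq_map]
    have e2 : v (y + -z) = v (z - y) := by
      rw [← map_neg_eq_map v (z - y)]; congr 1; ring
    have e3 : v (-z + x) = v (z - x) := by
      rw [← map_neg_eq_map v (z - x)]; congr 1; ring
    rw [e1, e2, e3] at hv
    rcases hv with hv | hv | hv
    · exact Or.inl hv
    · exact Or.inr (Or.inr hv)
    · exact Or.inr (Or.inl hv)
  · have h1 := hQ ((2 : ℝ) ^ n) (by positivity) (fun v =>
      pow_le_pow_left₀ (by norm_num) (by exact_mod_cast one_lt_nrm v) n) (by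
      have h2 := pow_bound5 h5
      have h3 : 5 ≤ n.minFac := by
        have hp := Nat.minFac_prime (by omega : n ≠ 1)
        have h4 := prime_gt_three h6 _ hp (Nat.minFac_dvd n)
        have h7 : n.minFac ≠ 4 := fun h8 => by
          rw [h8] at hp; exact absurd hp (by norm_num)
        omega
      have h4 : 5 ^ n ≤ n.minFac ^ n := Nat.pow_le_pow_left h3 n
      exact_mod_cast h2.trans h4)
    have h2 : (2 : ℝ) ^ n = 4 * 2 ^ (n - 2) := by
      have : n = (n - 2) + 2 := by omega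
      conv_lhs => rw [this, pow_add]
      ring
    rw [h2] at h1
    linarith
  · intro hpn h7 q hq4 hq
    apply hQ ((q : ℝ) ^ n) (by positivity)
    · intro v
      apply pow_le_pow_left₀ (by positivity)
      exact_mod_cast hq _ v.maximalIdeal.isPrime v.maximalIdeal.ne_bot
    · rw [hpn.minFac_eq]
      have h1 := pow_bound7 h7
      have h2 : q ^ n * n ^ 2 ≤ n ^ n :=
        (Nat.mul_le_mul_right _ (Nat.pow_le_pow_left hq4 n)).trans h1
      exact_mod_cast h2

end Pool.Agent.W7.FH
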