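import Pool.Agent.W7.FH.Qd

/-!
Real quadratic fields: the unit case does not occur.
-/

set_option autoImplicit false

namespace Pool.Agent.W7.FH

open NumberField IsDedekindDomain Height

variable {K : Type} [Field K] [NumberField K]

lemma le_of_mul_eq {x1 y1 x2 y2 : ℝ} (hx1 : 0 < x1) (hx : x1 ≤ x2) (hy1 : 0 < y1)
    (h : x1 * y1 = x2 * y2) : y2 ≤ y1 := by
  by_contra hcon
  push Not at hcon
  nlinarith

/-- real quadratic fields, with an ordering of the absolute values at the first place -/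
theorem real_case_ord {p : ℕ} (hp2 : 2 ≤ p) (hodd : Odd p) {a b c : K}
    (ha : a ≠ 0) (hb : b ≠ 0) (hc : c ≠ 0)
    (h : a ^ p + b ^ p + c ^ p = 0) (hab : a + b ≠ 0) (hbc : b + c ≠ 0) (hca : c + a ≠ 0)
    (hU : UnitCase a b c) (f g : K →+* ℝ)
    (hN : ∀ x : K, ((Algebra.norm ℚ x : ℚ) : ℝ) = f x * g x)
    (hT : ∀ x : K, ((Algebra.trace ℚ K x : ℚ) : ℝ) = f x + g x)
    (o1 : |f (c + a)| ≤ |f (a + b)|) (o2 : |f (a + b)| ≤ |f (b + c)|) : False := by
  have hunit : ∀ x : K, x ≠ 0 → (∀ v : FinitePlace K, v x = 1) → |f x| * |g x| = 1 := by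
    intro x hx hv
    have h1 := abs_norm_eq_one hx hv
    rw [← abs_mul, ← hN, ← Rat.cast_abs, h1, Rat.cast_one]
  have hx : |f (a + b)| * |g (a + b)| = |f (c + a)| * |g (c + a)| := by
    have h1 := hunit ((a + b) / (c + a)) (div_ne_zero hab hca) (fun v => by
      obtain ⟨h1, h2, h3⟩ := hU v
      rw [map_div₀, h1, ← h3, div_self (FinitePlace.pos_iff.mpr hca).ne'])
    rw [map_div₀, map_div₀, abs_div, abs_div, div_mul_div_comm, div_eq_one_iff_eq] at h1
    · exact h1
    · exact mul_ne_zero (abs_ne_zero.mpr ((map_ne_zero f).mpr hca))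
        (abs_ne_zero.mpr ((map_ne_zero g).mpr hca))
  have hy : |f (b + c)| * |g (b + c)| = |f (c + a)| * |g (c + a)| := by
    have h1 := hunit ((b + c) / (c + a)) (div_ne_zero hbc hca) (fun v => by
      obtain ⟨h1, h2, h3⟩ := hU v
      rw [map_div₀, h2, ← h3, div_self (FinitePlace.pos_iff.mpr hca).ne'])
    rw [map_div₀, map_div₀, abs_div, abs_div, div_mul_div_comm, div_eq_one_iff_eq] at h1
    · exact h1
    · exact mul_ne_zero (abs_ne_zero.mpr ((map_ne_zero f).mpr hca))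
        (abs_ne_zero.mpr ((map_ne_zero g).mpr hca))
  have pos : ∀ (φ : K →+* ℝ) (x : K), x ≠ 0 → 0 < |φ x| := fun φ x hx =>
    abs_pos.mpr ((map_ne_zero φ).mpr hx)
  have hf : f a ^ p + f b ^ p + f c ^ p = 0 := by
    rw [← map_pow, ← map_pow, ← map_pow, ← map_add, ← map_add, h, map_zero]
  have hg : g a ^ p + g b ^ p + g c ^ p = 0 := by
    rw [← map_pow, ← map_pow, ← map_pow, ← map_add, ← map_add, h, map_zero]
  -- the second place
  have o3 : |g (b + c)| ≤ |g (a + b)| :=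
    le_of_mul_eq (pos f _ hab) o2 (pos g _ hab) (hx.trans hy.symm)
  have o4 : |g (a + b)| ≤ |g (c + a)| := le_of_mul_eq (pos f _ hca) o1 (pos g _ hca) hx.symm
  obtain ⟨t1, r1, ht1, hr1, hrt1, eb1, ea1⟩ := signs (p := p) hp2 hodd
    ((map_ne_zero f).mpr ha) ((map_ne_zero f).mpr hb) ((map_ne_zero f).mpr hc) hf
    (by rw [← map_add, ← map_add]; exact o1.trans o2) (by rw [← map_add, ← map_add]; exact o2)
  obtain ⟨t2, r2, ht2, hr2, hrt2, ea2, eb2⟩ := signs (p := p) (a := g b) (b := g a) (c := g c)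
    hp2 hodd
    ((map_ne_zero g).mpr hb) ((map_ne_zero g).mpr ha) ((map_ne_zero g).mpr hc) (by linarith)
    (by rw [← map_add, ← map_add, add_comm c b, add_comm a c]; exact o3.trans o4)
    (by rw [← map_add, ← map_add, add_comm b a, add_comm a c]; exact o4)
  have g1 := r_gt_one ht1 hr1 hrt1
  have g2 := r_gt_one ht2 hr2 hrt2
  have l1 := r_gt_t hr1 hrt1
  have l2 := r_gt_t hr2 hrt2
  have hfc := pos f c hc
  have hgc := pos g c hc
  have v1 : |f (a + b)| = (r1 - t1) * |f c| := by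
    rw [map_add, ea1, eb1, show -(r1 * f c) + t1 * f c = -((r1 - t1) * f c) by ring, abs_neg,
      abs_mul, abs_of_pos (by linarith)]
  have v2 : |f (b + c)| = (1 + t1) * |f c| := by
    rw [map_add, eb1, show t1 * f c + f c = (1 + t1) * f c by ring,
      abs_mul, abs_of_pos (by linarith)]
  have v3 : |f (c + a)| = (r1 - 1) * |f c| := by
    rw [map_add, ea1, show f c + -(r1 * f c) = -((r1 - 1) * f c) by ring, abs_neg,
      abs_mul, abs_of_pos (by linarith)]
  have w1 : |g (a + b)| = (r2 - t2) * |g c| := by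
    rw [map_add, ea2, eb2, show t2 * g c + -(r2 * g c) = -((r2 - t2) * g c) by ring, abs_neg,
      abs_mul, abs_of_pos (by linarith)]
  have w2 : |g (b + c)| = (r2 - 1) * |g c| := by
    rw [map_add, eb2, show -(r2 * g c) + g c = -((r2 - 1) * g c) by ring, abs_neg,
      abs_mul, abs_of_pos (by linarith)]
  have w3 : |g (c + a)| = (1 + t2) * |g c| := by
    rw [map_add, ea2, show g c + t2 * g c = (1 + t2) * g c by ring,
      abs_mul, abs_of_pos (by linarith)]
  rw [v1, v3, w1, w3] at hx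
  rw [v2, v3, w2, w3] at hy
  have hD : 0 < |f c| * |g c| := mul_pos hfc hgc
  have hx' : (r1 - t1) * (r2 - t2) = (r1 - 1) * (1 + t2) := by
    apply mul_right_cancel₀ hD.ne'
    linear_combination hx
  have hy' : (1 + t1) * (r2 - 1) = (r1 - 1) * (1 + t2) := by
    apply mul_right_cancel₀ hD.ne'
    linear_combination hy
  have ht12 : t1 = t2 := t_eq hp2 ht1 hr1 hrt1 ht2 hr2 hrt2 hy'
  subst ht12
  have hr12 : r1 = r2 := by
    have : r1 ^ p = r2 ^ p := by rw [hrt1, hrt2]
    exact (pow_left_inj₀ hr1.le hr2.le (by omega)).1 this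
  subst hr12
  have hd : 0 < r1 - t1 := by linarith
  -- the element `-c / (a + b)`
  have hfc0 : f c ≠ 0 := (map_ne_zero f).mpr hc
  have hgc0 : g c ≠ 0 := (map_ne_zero g).mpr hc
  have hfab : f (a + b) = -((r1 - t1) * f c) := by rw [map_add, ea1, eb1]; ring
  have hgab : g (a + b) = -((r1 - t1) * g c) := by rw [map_add, ea2, eb2]; ring
  have hfk : f (-c / (a + b)) = 1 / (r1 - t1) := by
    rw [map_div₀, map_neg, hfab]
    field_simp
  have hgk : g (-c / (a + b)) = 1 / (r1 - t1) := by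
    rw [map_div₀, map_neg, hgab]
    field_simp
  have hint : IsIntegral ℤ (-c / (a + b)) := isIntegral_div _ _ hab fun v => by
    rw [(hU v).1, map_neg_eq_map]; exact le_mx3 v a b c
  obtain ⟨q, hq⟩ : ∃ q : ℚ, -c / (a + b) = algebraMap ℚ K q := by
    refine ⟨Algebra.trace ℚ K (-c / (a + b)) / 2, ?_⟩
    apply f.injective
    have h1 := hT (-c / (a + b))
    rw [hgk] at h1
    have h2 : f (algebraMap ℚ K (Algebra.trace ℚ K (-c / (a + b)) / 2)) =
        ((Algebra.trace ℚ K (-c / (a + b)) / 2 : ℚ) : ℝ) := by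
      rw [eq_ratCast, map_ratCast]
    rw [h2]
    push_cast
    rw [h1, hfk]
    ring
  have hqint : IsIntegral ℤ q := by
    rw [hq] at hint
    exact (isIntegral_algebraMap_iff (algebraMap ℚ K).injective).1 hint
  obtain ⟨k, hk⟩ := IsIntegrallyClosed.isIntegral_iff.1 hqint
  have hk1 : -c / (a + b) = (k : K) := by
    rw [hq, ← hk]
    simp
  have hkR : (k : ℝ) = 1 / (r1 - t1) := by
    rw [← hfk, hk1, map_intCast]
  have hkpos : 0 < k := by
    have : (0 : ℝ) < k := by rw [hkR]; positivity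
    exact_mod_cast this
  -- congruence modulo `k ^ 2 - k + 1`
  have hx1 : (r1 - t1) * (k : ℝ) = 1 := by rw [hkR]; field_simp
  rcases (show k = 1 ∨ 2 ≤ k by omega) with hk1' | hk2
  · rw [hk1', Int.cast_one, mul_one] at hx1
    have h1 : r1 = 1 + t1 := by linarith
    have h2 := one_add_pow_gt hp2 ht1
    rw [← h1] at h2
    linarith
  have iA : IsIntegral ℤ (a / (a + b)) := isIntegral_div _ _ hab fun v => by
    rw [(hU v).1]; exact le_mx1 v a b c
  have iB : IsIntegral ℤ (b / (a + b)) := isIntegral_div _ _ hab fun v => by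
    rw [(hU v).1]; exact le_mx2 v a b c
  obtain ⟨A, eA⟩ : ∃ A : 𝓞 K, algebraMap (𝓞 K) K A = a / (a + b) := ⟨⟨_, iA⟩, rfl⟩
  obtain ⟨B, eB⟩ : ∃ B : 𝓞 K, algebraMap (𝓞 K) K B = b / (a + b) := ⟨⟨_, iB⟩, rfl⟩
  obtain ⟨r, hr⟩ := mul_dvd_add_pow A B (n := p) (by omega)
  have hAB : A + B = 1 := by
    apply FaithfulSMul.algebraMap_injective (𝓞 K) K
    rw [map_add, eA, eB, map_one, ← add_div, div_self hab]
  have hABp : A ^ p + B ^ p = (k : 𝓞 K) ^ p := by
    apply FaithfulSMul.algebraMap_injective (𝓞 K) K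
    rw [map_add, map_pow, map_pow, map_pow, eA, eB, map_intCast, ← hk1, div_pow, div_pow,
      div_pow, ← add_div]
    congr 1
    rw [hodd.neg_pow]
    linear_combination h
  have hABm : A * B = ((-(k ^ 2 - k + 1) : ℤ) : 𝓞 K) := by
    apply FaithfulSMul.algebraMap_injective (𝓞 K) K
    apply f.injective
    rw [map_mul, eA, eB, map_intCast, map_intCast, map_mul, map_div₀, map_div₀, hfab, ea1, eb1]
    push_cast
    have e1 : -(r1 * f c) / -((r1 - t1) * f c) = r1 * (k : ℝ) := by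
      rw [hkR]; field_simp
    have e2 : t1 * f c / -((r1 - t1) * f c) = -(t1 * (k : ℝ)) := by
      rw [hkR]; field_simp
    rw [e1, e2]
    -- `(r - t) ^ 2 = (1 + t) (r - 1)` times `k ^ 2`
    have e3 : (r1 - t1) * (r1 - t1) * (k : ℝ) ^ 2 = 1 := by
      have : (r1 - t1) * (r1 - t1) * (k : ℝ) ^ 2 = ((r1 - t1) * k) * ((r1 - t1) * k) := by ring
      rw [this, hx1, mul_one]
    rw [hx'] at e3
    linear_combination -e3 + (k : ℝ) * hx1
  have hdvd : k ^ 2 - k + 1 ∣ 1 - k ^ p := by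
    obtain ⟨N, hN'⟩ : ∃ N : ℕ, (N : ℤ) = k ^ 2 - k + 1 :=
      ⟨(k ^ 2 - k + 1).toNat, Int.toNat_of_nonneg (by nlinarith)⟩
    rw [← hN']
    apply int_dvd (K := K) (1 - k ^ p) (-r)
    have h1 : ((N : ℕ) : 𝓞 K) = ((k ^ 2 - k + 1 : ℤ) : 𝓞 K) := by
      rw [← hN', Int.cast_natCast]
    rw [h1]
    rw [hAB, one_pow, sub_sub, hABp, hABm] at hr
    push_cast at hr ⊢
    linear_combination hr
  exact arith_contra hodd hk2 hdvd

end Pool.Agent.W7.FH
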