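import Pool.Agent.W7.FH.Tq

/-!
Fermat's equation over number fields with at most two infinite places: the trivial solutions and the
final theorem.
-/

set_option autoImplicit false

namespace Pool.Agent.W7.FH

open NumberField IsDedekindDomain Height

lemma norm_identity (X Y : ℂ) : ‖X ^ 2 + X * Y + Y ^ 2‖ ^ 2 =
    (‖X‖ ^ 2 - ‖Y‖ ^ 2) ^ 2 + (‖X + Y‖ ^ 2 - ‖X‖ ^ 2) * (‖X + Y‖ ^ 2 - ‖Y‖ ^ 2) := by
  rw [Complex.sq_norm, Complex.sq_norm, Complex.sq_norm, Complex.sq_norm]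
  simp only [Complex.normSq_apply, Complex.add_re, Complex.add_im, Complex.mul_re, Complex.mul_im,
    sq]
  ring

lemma omega_near {X Y : ℂ} (hY : Y ≠ 0) (h1 : ‖X‖ ≤ 1.01 * ‖Y‖) (h2 : ‖Y‖ ≤ 1.01 * ‖X‖)
    (h3 : ‖X + Y‖ ≤ 1.01 * ‖Y‖) (h4 : ‖Y‖ ≤ 1.01 * ‖X + Y‖) :
    ‖X ^ 2 + X * Y + Y ^ 2‖ < ‖Y‖ ^ 2 := by
  have hy : 0 < ‖Y‖ := norm_pos_iff.mpr hY
  have h := norm_identity X Y
  obtain ⟨x, hx⟩ : ∃ x, x = ‖X‖ := ⟨_, rfl⟩
  obtain ⟨y, hy'⟩ : ∃ y, y = ‖Y‖ := ⟨_, rfl⟩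
  obtain ⟨z, hz⟩ : ∃ z, z = ‖X + Y‖ := ⟨_, rfl⟩
  obtain ⟨n, hn⟩ : ∃ n, n = ‖X ^ 2 + X * Y + Y ^ 2‖ := ⟨_, rfl⟩
  have hx0 : 0 ≤ x := by rw [hx]; exact norm_nonneg _
  have hz0 : 0 ≤ z := by rw [hz]; exact norm_nonneg _
  have hn0 : 0 ≤ n := by rw [hn]; exact norm_nonneg _
  rw [← hx, ← hy', ← hz, ← hn] at h
  rw [← hx, ← hy'] at h1 h2
  rw [← hz, ← hy'] at h3 h4
  rw [← hy'] at hy
  rw [← hn, ← hy']
  have a1 : x ^ 2 ≤ 1.0201 * y ^ 2 := by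
    calc x ^ 2 ≤ (1.01 * y) ^ 2 := pow_le_pow_left₀ hx0 h1 2
      _ = _ := by ring
  have a2 : y ^ 2 ≤ 1.0201 * x ^ 2 := by
    calc y ^ 2 ≤ (1.01 * x) ^ 2 := pow_le_pow_left₀ hy.le h2 2
      _ = _ := by ring
  have a3 : z ^ 2 ≤ 1.0201 * y ^ 2 := by
    calc z ^ 2 ≤ (1.01 * y) ^ 2 := pow_le_pow_left₀ hz0 h3 2
      _ = _ := by ring
  have a4 : y ^ 2 ≤ 1.0201 * z ^ 2 := by
    calc y ^ 2 ≤ (1.01 * z) ^ 2 := pow_le_pow_left₀ hy.le h4 2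
      _ = _ := by ring
  obtain ⟨A, hA⟩ : ∃ A, A = x ^ 2 := ⟨_, rfl⟩
  obtain ⟨B, hB⟩ : ∃ A, A = y ^ 2 := ⟨_, rfl⟩
  obtain ⟨C, hC⟩ : ∃ A, A = z ^ 2 := ⟨_, rfl⟩
  rw [← hA, ← hB, ← hC] at h
  rw [← hA, ← hB] at a1 a2
  rw [← hC, ← hB] at a3 a4
  rw [← hB]
  have hB0 : 0 < B := by rw [hB]; positivity
  have b1 : |A - B| ≤ 0.03 * B := abs_le.mpr ⟨by linarith, by linarith⟩
  have b2 : |C - B| ≤ 0.03 * B := abs_le.mpr ⟨by linarith, by linarith⟩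
  have b3 : |C - A| ≤ 0.06 * B := by
    have := abs_sub_le C B A
    rw [abs_sub_comm B A] at this
    linarith
  have c1 : (A - B) ^ 2 ≤ (0.03 * B) ^ 2 := by
    rw [← sq_abs]
    exact pow_le_pow_left₀ (abs_nonneg _) b1 2
  have c2 : (C - A) * (C - B) ≤ (0.06 * B) * (0.03 * B) := by
    calc (C - A) * (C - B) ≤ |(C - A) * (C - B)| := le_abs_self _
      _ = |C - A| * |C - B| := abs_mul _ _
      _ ≤ _ := mul_le_mul b3 b2 (abs_nonneg _) (by positivity)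
  have c3 : n ^ 2 < B ^ 2 := by
    rw [h]
    nlinarith
  exact lt_of_pow_lt_pow_left₀ 2 hB0.le c3

lemma ratio_bound {r s : ℝ} (hs : 0 ≤ s) {p : ℕ} (hp : 301 ≤ p) (h : r ^ p ≤ 4 * s ^ p) :
    r ≤ 1.01 * s := by
  by_contra hcon
  push Not at hcon
  rcases hs.eq_or_lt with h0 | h0
  · rw [← h0, mul_zero] at hcon
    rw [← h0, zero_pow (by omega), mul_zero] at h
    have := pow_pos hcon p
    linarith
  have h1 : (1.01 * s) ^ p ≤ r ^ p := pow_le_pow_left₀ (by positivity) hcon.le _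
  rw [mul_pow] at h1
  have h2 : (1 : ℝ) + p * 0.01 ≤ 1.01 ^ p := by
    have := one_add_mul_le_pow (a := (0.01 : ℝ)) (by norm_num) p
    have e : (1 : ℝ) + 0.01 = 1.01 := by norm_num
    rwa [e] at this
  have h3 : (301 : ℝ) ≤ p := by exact_mod_cast hp
  have h4 : 0 < s ^ p := by positivity
  have h5 : (4 : ℝ) < 1.01 ^ p := by linarith
  have h6 : 4 * s ^ p < 1.01 ^ p * s ^ p := mul_lt_mul_of_pos_right h5 h4
  linarith

variable {K : Type} [Field K] [NumberField K]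

/-- the absolute values of `X`, `Y`, `Z` at `w` are close to each other -/
def Close (p : ℕ) (w : InfinitePlace K) (X Y Z : K) : Prop :=
  ((w X) ^ p ≤ 4 * (w Y) ^ p ∧ (w Y) ^ p ≤ 4 * (w X) ^ p) ∧
  ((w Y) ^ p ≤ 4 * (w Z) ^ p ∧ (w Z) ^ p ≤ 4 * (w Y) ^ p) ∧
  ((w Z) ^ p ≤ 4 * (w X) ^ p ∧ (w X) ^ p ≤ 4 * (w Z) ^ p)

omit [NumberField K] in
lemma Close.rot {p : ℕ} {w : InfinitePlace K} {X Y Z : K} (h : Close p w X Y Z) :
    Close p w Y Z X := ⟨h.2.1, h.2.2, h.1⟩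

omit [NumberField K] in
lemma Close.swap {p : ℕ} {w : InfinitePlace K} {X Y Z : K} (h : Close p w X Y Z) :
    Close p w Z Y X := ⟨h.2.1.symm, h.1.symm, h.2.2.symm⟩

omit [NumberField K] in
lemma close_of {p : ℕ} {w : InfinitePlace K} {X Y Z : K} (h1 : w Z ≤ w X) (h2 : w X ≤ w Y)
    (h3 : (w Y) ^ p ≤ 4 * (w Z) ^ p) : Close p w X Y Z := by
  have a1 : (w Z) ^ p ≤ (w X) ^ p := pow_le_pow_left₀ (apply_nonneg _ _) h1 _
  have a2 : (w X) ^ p ≤ (w Y) ^ p := pow_le_pow_left₀ (apply_nonneg _ _) h2 _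
  have a3 : 0 ≤ (w Z) ^ p := pow_nonneg (apply_nonneg _ _) _
  refine ⟨⟨?_, ?_⟩, ⟨?_, ?_⟩, ⟨?_, ?_⟩⟩ <;> linarith

omit [NumberField K] in
lemma tri_pow {p : ℕ} (w : InfinitePlace K) {X Y Z : K} (h : X ^ p + Y ^ p + Z ^ p = 0) :
    (w Y) ^ p ≤ (w X) ^ p + (w Z) ^ p := by
  have e : Y ^ p = -(X ^ p + Z ^ p) := by linear_combination h
  have h1 : w (Y ^ p) ≤ w (X ^ p) + w (Z ^ p) := by
    rw [e]
    have e2 : w (-(X ^ p + Z ^ p)) = w (X ^ p + Z ^ p) := w.1.map_neg _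
    rw [e2]
    exact w.1.add_le _ _
  rwa [map_pow, map_pow, map_pow] at h1

lemma close_two {p : ℕ} {w1 w2 : InfinitePlace K} (hne : w1 ≠ w2)
    (hu : ∀ w, w = w1 ∨ w = w2) (hc : ∀ w : InfinitePlace K, ¬ w.IsReal) {X Y Z : K}
    (hX : X ≠ 0) (hY : Y ≠ 0) (hZ : Z ≠ 0) (hXY : ∀ v : FinitePlace K, v X = v Y)
    (hZY : ∀ v : FinitePlace K, v Z = v Y) (h : X ^ p + Y ^ p + Z ^ p = 0)
    (h1 : w1 Z ≤ w1 X) (h2 : w1 X ≤ w1 Y) (w : InfinitePlace K) : Close p w X Y Z := by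
  have h3 : w2 Y ≤ w2 X := reverse_order hne hu hX hY hXY h2
  have h4 : w2 X ≤ w2 Z := reverse_order hne hu hZ hX (fun v => (hZY v).trans (hXY v).symm) h1
  have m : ∀ w : InfinitePlace K, w.mult = 2 := fun w => by
    unfold InfinitePlace.mult
    rw [if_neg (hc w)]
  have pf : ∀ x : K, x ≠ 0 → (∀ v : FinitePlace K, v x = v Y) → w1 x * w2 x = w1 Y * w2 Y := by
    intro x hx hv
    have h5 := prod_inf_eq hx hY hv
    rw [prod_two w1 w2 hne hu, prod_two w1 w2 hne hu, m, m, ← mul_pow, ← mul_pow] at h5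
    have h6 : 0 ≤ w1 x * w2 x := mul_nonneg (apply_nonneg _ _) (apply_nonneg _ _)
    have h7 : 0 ≤ w1 Y * w2 Y := mul_nonneg (apply_nonneg _ _) (apply_nonneg _ _)
    exact (pow_left_inj₀ h6 h7 (by norm_num)).mp h5
  have pX := congrArg (· ^ p) (pf X hX hXY)
  have pZ := congrArg (· ^ p) (pf Z hZ hZY)
  simp only [mul_pow] at pX pZ
  have t1 := tri_pow w1 h
  have t2 := tri_pow w2 (X := X) (Y := Z) (Z := Y) (by linear_combination h)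
  have x1 := pow_pos (inf_pos w1 hX) p
  have x2 := pow_pos (inf_pos w2 hX) p
  have y1 := pow_pos (inf_pos w1 hY) p
  have y2 := pow_pos (inf_pos w2 hY) p
  have z1 := pow_pos (inf_pos w1 hZ) p
  have z2 := pow_pos (inf_pos w2 hZ) p
  have o1 : (w1 Z) ^ p ≤ (w1 X) ^ p := pow_le_pow_left₀ (apply_nonneg _ _) h1 _
  have o2 : (w2 Y) ^ p ≤ (w2 X) ^ p := pow_le_pow_left₀ (apply_nonneg _ _) h3 _
  -- `x2 ≤ 2 y2`
  have k1 : (w2 X) ^ p ≤ 2 * (w2 Y) ^ p := by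
    by_contra hcon
    push Not at hcon
    nlinarith
  -- `x1 ≤ 2 z1`
  have k2 : (w1 X) ^ p ≤ 2 * (w1 Z) ^ p := by
    by_contra hcon
    push Not at hcon
    nlinarith
  rcases hu w with rfl | rfl
  · exact close_of h1 h2 (by linarith)
  · have := close_of (p := p) (X := X) (Y := Z) (Z := Y) h3 h4 (by linarith)
    exact this.rot.swap

end Pool.Agent.W7.FH
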