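import Pool.Agent.W7.FH.Te

/-!
Fermat's equation over number fields with at most two infinite places: final theorem.
-/

set_option autoImplicit false

namespace Pool.Agent.W7.FH

open NumberField IsDedekindDomain Height

variable {K : Type} [Field K] [NumberField K]

lemma places_cases (hcard : Fintype.card (InfinitePlace K) ≤ 2) :
    (∀ w w' : InfinitePlace K, w = w') ∨
      ∃ w1 w2 : InfinitePlace K, w1 ≠ w2 ∧ ∀ w, w = w1 ∨ w = w2 := by
  classical
  by_cases h : ∀ w w' : InfinitePlace K, w = w'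
  · exact Or.inl h
  · right
    push Not at h
    obtain ⟨w1, w2, hne⟩ := h
    refine ⟨w1, w2, hne, fun w => ?_⟩
    by_contra hcon
    push Not at hcon
    have h3 : ({w, w1, w2} : Finset (InfinitePlace K)).card = 3 := by
      rw [Finset.card_eq_three]
      exact ⟨_, _, _, hcon.1, hcon.2, hne, rfl⟩
    have h4 := Finset.card_le_univ ({w, w1, w2} : Finset (InfinitePlace K))
    omega

lemma eq_of_single (hs : ∀ w w' : InfinitePlace K, w = w') {x y : K} (hx : x ≠ 0) (hy : y ≠ 0)
    (h : ∀ v : FinitePlace K, v x = v y) (w : InfinitePlace K) : w x = w y := by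
  have : Subsingleton (InfinitePlace K) := ⟨hs⟩
  have h1 := prod_inf_eq hx hy h
  rw [Fintype.prod_subsingleton _ w, Fintype.prod_subsingleton _ w] at h1
  exact (pow_left_inj₀ (apply_nonneg _ _) (apply_nonneg _ _)
    (by have := (mult_bounds w).1; omega)).mp h1

lemma close_all {p : ℕ} (hcard : Fintype.card (InfinitePlace K) ≤ 2)
    (hc : ∀ w : InfinitePlace K, ¬ w.IsReal) {X Y Z : K}
    (hX : X ≠ 0) (hY : Y ≠ 0) (hZ : Z ≠ 0) (hXY : ∀ v : FinitePlace K, v X = v Y)
    (hZY : ∀ v : FinitePlace K, v Z = v Y) (h : X ^ p + Y ^ p + Z ^ p = 0)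
    (w : InfinitePlace K) : Close p w X Y Z := by
  rcases places_cases hcard with hs | ⟨w1, w2, hne, hu⟩
  · have h1 := eq_of_single hs hX hY hXY w
    have h2 := eq_of_single hs hZ hY hZY w
    have h3 : 0 ≤ (w Y) ^ p := pow_nonneg (apply_nonneg _ _) _
    refine close_of (by rw [h1, h2]) h1.le ?_
    rw [h2]
    linarith
  · rcases le_total (w1 X) (w1 Y) with h1 | h1
    · rcases le_total (w1 Z) (w1 X) with h2 | h2
      · exact close_two hne hu hc hX hY hZ hXY hZY h h2 h1 w
      · rcases le_total (w1 Z) (w1 Y) with h3 | h3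
        · -- X ≤ Z ≤ Y
          exact (close_two hne hu hc hZ hY hX hZY hXY (by linear_combination h) h2 h3 w).swap
        · -- X ≤ Y ≤ Z
          exact (close_two hne hu hc hY hZ hX (fun v => (hZY v).symm)
            (fun v => (hXY v).trans (hZY v).symm) (by linear_combination h) h1 h3 w).rot.rot
    · rcases le_total (w1 Z) (w1 Y) with h2 | h2
      · -- Z ≤ Y ≤ X
        exact (close_two hne hu hc hY hX hZ (fun v => (hXY v).symm)
          (fun v => (hZY v).trans (hXY v).symm) (by linear_combination h) h2 h1 w).swap.rot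
      · rcases le_total (w1 Z) (w1 X) with h3 | h3
        · -- Y ≤ Z ≤ X
          exact (close_two hne hu hc hZ hX hY (fun v => (hZY v).trans (hXY v).symm)
            (fun v => (hXY v).symm) (by linear_combination h) h2 h3 w).rot
        · -- Y ≤ X ≤ Z
          exact (close_two hne hu hc hX hZ hY (fun v => (hXY v).trans (hZY v).symm)
            (fun v => (hZY v).symm) (by linear_combination h) h1 h3 w).rot.swap

theorem omega_of_sum_zero {p : ℕ} (hp : 301 ≤ p) (hcard : Fintype.card (InfinitePlace K) ≤ 2)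
    (hc : ∀ w : InfinitePlace K, ¬ w.IsReal) {X Y Z : K}
    (hX : X ≠ 0) (hY : Y ≠ 0) (hZ : Z ≠ 0) (hXY : ∀ v : FinitePlace K, v X = v Y)
    (hZY : ∀ v : FinitePlace K, v Z = v Y) (h : X ^ p + Y ^ p + Z ^ p = 0)
    (hs : X + Y + Z = 0) : X ^ 2 + X * Y + Y ^ 2 = 0 := by
  by_contra hne
  have h1 : ∀ v : FinitePlace K, v (X ^ 2 + X * Y + Y ^ 2) ≤ v (Y ^ 2) := by
    intro v
    have e1 : v (X ^ 2) = v (Y ^ 2) := by rw [map_pow, map_pow, hXY v]
    have e2 : v (X * Y) = v (Y ^ 2) := by rw [map_mul, map_pow, hXY v, sq]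
    refine (FinitePlace.add_le v _ _).trans (max_le ?_ le_rfl)
    exact (FinitePlace.add_le v _ _).trans (max_le e1.le e2.le)
  have h2 := prod_inf_le hne (pow_ne_zero 2 hY) h1
  have h3 : ∀ w : InfinitePlace K, w (X ^ 2 + X * Y + Y ^ 2) < w (Y ^ 2) := by
    intro w
    have hcl := close_all hcard hc hX hY hZ hXY hZY h w
    have r1 := ratio_bound (apply_nonneg w Y) hp hcl.1.1
    have r2 := ratio_bound (apply_nonneg w X) hp hcl.1.2
    have r3 := ratio_bound (apply_nonneg w Y) hp hcl.2.1.2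
    have r4 := ratio_bound (apply_nonneg w Z) hp hcl.2.1.1
    obtain ⟨φ, hφ⟩ : ∃ φ : K →+* ℂ, φ = w.embedding := ⟨_, rfl⟩
    have hw : ∀ x : K, w x = ‖φ x‖ := fun x => by rw [hφ]; exact (w.norm_embedding_eq x).symm
    have eZ : w Z = ‖φ X + φ Y‖ := by
      have : Z = -(X + Y) := by linear_combination hs
      rw [hw, this, map_neg, norm_neg, map_add]
    rw [eZ] at r3 r4
    rw [hw X, hw Y] at r1 r2
    rw [hw Y] at r3 r4
    have h4 := omega_near ((map_ne_zero φ).mpr hY) r1 r2 r3 r4
    rw [hw, hw, map_add, map_add, map_mul, map_pow, map_pow, norm_pow]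
    exact h4
  have h4 : ∏ w : InfinitePlace K, w (X ^ 2 + X * Y + Y ^ 2) ^ w.mult <
      ∏ w : InfinitePlace K, w (Y ^ 2) ^ w.mult := by
    apply Finset.prod_lt_prod_of_nonempty
    · intro w _
      exact pow_pos (inf_pos w hne) _
    · intro w _
      exact pow_lt_pow_left₀ (h3 w) (apply_nonneg _ _) (by have := (mult_bounds w).1; omega)
    · exact Finset.univ_nonempty
  linarith

lemma finrank_le_four (hcard : Fintype.card (InfinitePlace K) ≤ 2) :
    Module.finrank ℚ K ≤ 4 := by
  rw [← InfinitePlace.sum_mult_eq]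
  calc ∑ w : InfinitePlace K, w.mult ≤ ∑ _w : InfinitePlace K, 2 :=
        Finset.sum_le_sum fun w _ => (mult_bounds w).2
    _ = Fintype.card (InfinitePlace K) * 2 := by simp
    _ ≤ 4 := by omega

/-- the threshold for the exponent -/
noncomputable def P0 : ℕ := max 20736 (⌈81 / eps0 ^ 2⌉₊ + 1)

lemma P0_spec {p : ℕ} (hp : P0 ≤ p) : 4 * 5184 ≤ (p : ℝ) ∧ 81 < (p : ℝ) * eps0 ^ 2 ∧ 301 ≤ p := by
  have h1 : 20736 ≤ p := (le_max_left _ _).trans hp
  have h2 : ⌈81 / eps0 ^ 2⌉₊ + 1 ≤ p := (le_max_right _ _).trans hp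
  refine ⟨?_, ?_, by omega⟩
  · have : (20736 : ℝ) ≤ p := by exact_mod_cast h1
    linarith
  · have h3 : 81 / eps0 ^ 2 < p := by
      calc 81 / eps0 ^ 2 ≤ (⌈81 / eps0 ^ 2⌉₊ : ℝ) := Nat.le_ceil _
        _ < ((⌈81 / eps0 ^ 2⌉₊ + 1 : ℕ) : ℝ) := by push_cast; linarith
        _ ≤ p := by exact_mod_cast h2
    have := eps0_pos
    rwa [div_lt_iff₀ (by positivity)] at h3

theorem two_places_main (hcard : Fintype.card (InfinitePlace K) ≤ 2) {p : ℕ} (hp : p.Prime)
    (hP : P0 ≤ p) (hd : ¬ (p : ℤ) ∣ discr K) {a b c : K} (ha : a ≠ 0) (hb : b ≠ 0) (hc : c ≠ 0)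
    (h : a ^ p + b ^ p + c ^ p = 0) :
    (2 : ℝ) ^ p ≤ 2 ^ Module.finrank ℚ K * mulHeight ![a, b, c] ∨
      (a + b + c = 0 ∧ a ^ 2 + a * b + b ^ 2 = 0) := by
  by_contra hcon
  push Not at hcon
  obtain ⟨hH, hno⟩ := hcon
  obtain ⟨hp1, hp2, hp3⟩ := P0_spec hP
  have hdpos : 0 < Module.finrank ℚ K := Module.finrank_pos
  have hd4 := finrank_le_four hcard
  have hodd : Odd p := hp.odd_of_ne_two (by omega)
  have hm : ∀ q : ℕ, q.Prime → q ∣ p → Module.finrank ℚ K + 1 < q := by
    intro q hq hqp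
    rw [(Nat.prime_dvd_prime_iff_eq hq hp).mp hqp]
    omega
  have hunits := units_of_small (by omega) hm ha hb hc h (Q := (2 : ℝ) ^ p) (by positivity)
    (fun w => by
      apply pow_le_pow_left₀ (by norm_num)
      have := one_lt_nrm w
      exact_mod_cast this) (by
      rw [hp.minFac_eq]
      have := pow_bound (d := Module.finrank ℚ K) (l := p) (n := p) (by omega) (by omega) (by omega)
        dvd_rfl
      exact_mod_cast this) hH
  obtain ⟨X, hX⟩ : ∃ X, X = a + b := ⟨_, rfl⟩
  obtain ⟨Y, hY⟩ : ∃ X, X = b + c := ⟨_, rfl⟩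
  obtain ⟨Z, hZ⟩ : ∃ X, X = c + a := ⟨_, rfl⟩
  have hX0 : X ≠ 0 := by rw [hX]; exact add_ne_zero_of_fermat hodd hc h
  have hY0 : Y ≠ 0 := by rw [hY]; exact add_ne_zero_of_fermat hodd ha (by linear_combination h)
  have hZ0 : Z ≠ 0 := by rw [hZ]; exact add_ne_zero_of_fermat hodd hb (by linear_combination h)
  have hXY : ∀ v : FinitePlace K, v X = v Y := fun v => by
    rw [hX, hY, (hunits v).1, (hunits v).2.1]
  have hZY : ∀ v : FinitePlace K, v Z = v Y := fun v => by
    rw [hZ, hY, (hunits v).2.2, (hunits v).2.1]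
  by_cases hs : a + b + c = 0
  · -- the trivial solutions
    have hcx : ∀ w : InfinitePlace K, ¬ w.IsReal := fun w hw =>
      sum_ne_zero_of_real (by omega) hodd w hw ha hb hc h hs
    have e1 : X = -c := by rw [hX]; linear_combination hs
    have e2 : Y = -a := by rw [hY]; linear_combination hs
    have e3 : Z = -b := by rw [hZ]; linear_combination hs
    have h1 : X ^ p + Y ^ p + Z ^ p = 0 := by
      rw [e1, e2, e3, hodd.neg_pow, hodd.neg_pow, hodd.neg_pow]
      linear_combination -h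
    have h2 : X + Y + Z = 0 := by rw [e1, e2, e3]; linear_combination -hs
    have h3 := omega_of_sum_zero hp3 hcard hcx hX0 hY0 hZ0 hXY hZY h1 h2
    apply hno hs
    have e4 : X = -Y - Z := by linear_combination h2
    rw [e4, e2, e3] at h3
    linear_combination h3
  · -- no solutions
    have hS : X + Y + Z ≠ 0 := by
      intro h0
      apply hs
      have : (2 : K) * (a + b + c) = 0 := by rw [← h0, hX, hY, hZ]; ring
      rcases mul_eq_zero.mp this with h2 | h2
      · exact absurd h2 (by norm_num)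
      · exact h2
    have hSv : ∀ v : FinitePlace K, v (X + Y + Z) ≤ v (p : K) * v Y := by
      intro v
      have e : X + Y + Z = (2 : ℕ) * (a + b + c) := by rw [hX, hY, hZ]; push_cast; ring
      have h1 := sum_le_of_units hp hd h (by rw [← hZ]; exact hZ0) (fun v => (hunits v).2.2) v
      have h2 := natCast_le_one v 2
      have h3 : v Y = mx v a b c := by rw [hY, (hunits v).2.1]
      rw [e, map_mul, h3]
      calc v ((2 : ℕ) : K) * v (a + b + c) ≤ 1 * v (a + b + c) :=
            mul_le_mul_of_nonneg_right h2 (apply_nonneg _ _)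
        _ = v (a + b + c) := one_mul _
        _ ≤ _ := h1
    have hG : FG p X Y Z := by
      unfold FG
      have e1 : X + Y - Z = 2 * b := by rw [hX, hY, hZ]; ring
      have e2 : Y + Z - X = 2 * c := by rw [hX, hY, hZ]; ring
      have e3 : Z + X - Y = 2 * a := by rw [hX, hY, hZ]; ring
      rw [e1, e2, e3, mul_pow, mul_pow, mul_pow]
      linear_combination (2 : K) ^ p * h
    rcases places_cases hcard with hsing | ⟨w1, w2, hne, hu⟩
    · have hne : Nonempty (InfinitePlace K) := inferInstance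
      obtain ⟨w⟩ := hne
      have : Subsingleton (InfinitePlace K) := ⟨hsing⟩
      have h1 := eq_of_single hsing hX0 hY0 hXY w
      have h2 := eq_of_single hsing hZ0 hY0 hZY w
      have hp0 : (p : K) ≠ 0 := by exact_mod_cast hp.ne_zero
      have h3 := prod_inf_le (x := X + Y + Z) (y := (p : K) * Y) hS (mul_ne_zero hp0 hY0) (by
        intro v
        rw [map_mul]
        exact hSv v)
      rw [Fintype.prod_subsingleton _ w, Fintype.prod_subsingleton _ w, inf_natCast_mul] at h3
      have h4 : w (X + Y + Z) ≤ w X + w Y + w Z :=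
        (w.1.add_le _ _).trans (add_le_add (w.1.add_le _ _) le_rfl)
      have hYp := inf_pos w hY0
      have h5 : w (X + Y + Z) < p * w Y := by
        rw [h1, h2] at h4
        nlinarith
      have h6 := pow_lt_pow_left₀ h5 (apply_nonneg _ _)
        (show w.mult ≠ 0 by have := (mult_bounds w).1; omega)
      linarith
    · exact two_place hodd hp1 hp2 hne hu hX0 hY0 hZ0 hS hXY hZY hSv hG

end Pool.Agent.W7.FH
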