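import Pool.Agent.W7.FH.Gm
import Pool.Agent.W7.FH.Cx

/-!
Fermat's equation over number fields with at most two infinite places.
-/

set_option autoImplicit false

namespace Pool.Agent.W7.FH

open NumberField IsDedekindDomain Height

section real

lemma two_real {m1 m2 : ℕ} (hm1 : 1 ≤ m1) (hm1' : m1 ≤ 2) (hm2 : 1 ≤ m2) (hm2' : m2 ≤ 2)
    {p ε x1 y1 z1 x2 z2 : ℝ} (hx1 : 0 < x1) (hy1 : 0 < y1) (hz1 : 0 < z1)
    (hz2 : 0 < z2) (hε : 0 < ε) (hε1 : ε ≤ 1) (hp1 : 1 ≤ p) (hp : 81 < p * ε ^ 2)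
    (h1 : (p * x1) ^ m1 * (p * x2) ^ m2 ≤ (3 * y1) ^ m1 * (3 * z2) ^ m2)
    (h2 : (p * z1) ^ m1 * (p * z2) ^ m2 ≤ (3 * y1) ^ m1 * (3 * z2) ^ m2)
    (h3 : z2 ≤ 8 * p * x2) (h4 : p * x1 ≤ 5184 * y1 → ε * y1 ≤ p * z1) : False := by
  have hp0 : 0 < p := by linarith
  have step1 : p * x1 ≤ 5184 * y1 := by
    by_contra hcon
    push Not at hcon
    have h5 : 1728 * (3 * y1) ^ m1 < (p * x1) ^ m1 := by
      calc 1728 * (3 * y1) ^ m1 ≤ 1728 ^ m1 * (3 * y1) ^ m1 := by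
            apply mul_le_mul_of_nonneg_right _ (by positivity)
            calc (1728 : ℝ) = 1728 ^ 1 := (pow_one _).symm
              _ ≤ 1728 ^ m1 := pow_le_pow_right₀ (by norm_num) hm1
        _ = (5184 * y1) ^ m1 := by rw [← mul_pow]; congr 1; ring
        _ < (p * x1) ^ m1 := pow_lt_pow_left₀ hcon (by positivity) (by omega)
    have h6 : (z2 / 8) ^ m2 ≤ (p * x2) ^ m2 := by
      apply pow_le_pow_left₀ (by positivity)
      linarith
    have h7 : (p * x1) ^ m1 * (z2 / 8) ^ m2 ≤ (24 ^ m2 * (3 * y1) ^ m1) * (z2 / 8) ^ m2 := by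
      calc (p * x1) ^ m1 * (z2 / 8) ^ m2 ≤ (p * x1) ^ m1 * (p * x2) ^ m2 := by gcongr
        _ ≤ (3 * y1) ^ m1 * (3 * z2) ^ m2 := h1
        _ = (3 * y1) ^ m1 * (24 * (z2 / 8)) ^ m2 := by congr 2; ring
        _ = _ := by rw [mul_pow 24]; ring
    have h8 := le_of_mul_le_mul_right h7 (by positivity)
    have h9 : (24 : ℝ) ^ m2 ≤ 1728 := by
      calc (24 : ℝ) ^ m2 ≤ 24 ^ 2 := pow_le_pow_right₀ (by norm_num) hm2'
        _ ≤ 1728 := by norm_num
    have h10 : (24 : ℝ) ^ m2 * (3 * y1) ^ m1 ≤ 1728 * (3 * y1) ^ m1 := by gcongr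
    linarith
  have h5 := h4 step1
  have h6 : 3 * y1 ≤ (3 / ε) * (p * z1) := by
    rw [div_mul_eq_mul_div, le_div_iff₀ hε]
    linarith
  have h7 : (p * z1) ^ m1 * (p * z2) ^ m2 ≤ ((3 / ε) ^ m1 * 3 ^ m2) * ((p * z1) ^ m1 * z2 ^ m2) := by
    calc (p * z1) ^ m1 * (p * z2) ^ m2 ≤ (3 * y1) ^ m1 * (3 * z2) ^ m2 := h2
      _ ≤ ((3 / ε) * (p * z1)) ^ m1 * (3 * z2) ^ m2 := by gcongr
      _ = _ := by rw [mul_pow, mul_pow 3 z2]; ring
  have h8 : (p * z1) ^ m1 * (p * z2) ^ m2 = p ^ m2 * ((p * z1) ^ m1 * z2 ^ m2) := by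
    rw [mul_pow p z2]; ring
  rw [h8] at h7
  have h9 := le_of_mul_le_mul_right h7 (by positivity)
  have h10 : p ≤ p ^ m2 := by
    calc p = p ^ 1 := (pow_one _).symm
      _ ≤ p ^ m2 := pow_le_pow_right₀ hp1 hm2
  have h11 : (3 / ε) ^ m1 ≤ (3 / ε) ^ 2 := by
    apply pow_le_pow_right₀ _ hm1'
    rw [le_div_iff₀ hε]
    linarith
  have h12 : (3 : ℝ) ^ m2 ≤ 3 ^ 2 := pow_le_pow_right₀ (by norm_num) hm2'
  have h13 : p ≤ (3 / ε) ^ 2 * 3 ^ 2 := by
    calc p ≤ p ^ m2 := h10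
      _ ≤ (3 / ε) ^ m1 * 3 ^ m2 := h9
      _ ≤ (3 / ε) ^ 2 * 3 ^ 2 := by gcongr
  have h14 : p * ε ^ 2 ≤ 81 := by
    calc p * ε ^ 2 ≤ (3 / ε) ^ 2 * 3 ^ 2 * ε ^ 2 := by gcongr
      _ = 81 := by field_simp; norm_num
  linarith

end real

variable {K : Type} [Field K] [NumberField K]

omit [NumberField K] in
lemma inf_natCast_mul (w : InfinitePlace K) (p : ℕ) (x : K) : w ((p : K) * x) = p * w x := by
  rw [← w.norm_embedding_eq, map_mul, map_natCast, norm_mul, Complex.norm_natCast,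
    w.norm_embedding_eq]

lemma prod_inf_le {x y : K} (hx : x ≠ 0) (hy : y ≠ 0) (h : ∀ v : FinitePlace K, v x ≤ v y) :
    ∏ w : InfinitePlace K, w y ^ w.mult ≤ ∏ w : InfinitePlace K, w x ^ w.mult := by
  classical
  have hfx : (fun v : FinitePlace K => v x).HasFiniteMulSupport :=
    FinitePlace.hasFiniteMulSupport hx
  have hfy : (fun v : FinitePlace K => v y).HasFiniteMulSupport :=
    FinitePlace.hasFiniteMulSupport hy
  set S : Finset (FinitePlace K) := hfx.toFinset ∪ hfy.toFinset with hS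
  have e1 : ∏ᶠ v : FinitePlace K, v x = ∏ v ∈ S, v x := by
    apply finprod_eq_prod_of_mulSupport_subset
    intro w hw
    rw [hS, Finset.coe_union]
    left
    exact Finset.mem_coe.mpr ((Set.Finite.mem_toFinset hfx).mpr hw)
  have e2 : ∏ᶠ v : FinitePlace K, v y = ∏ v ∈ S, v y := by
    apply finprod_eq_prod_of_mulSupport_subset
    intro w hw
    rw [hS, Finset.coe_union]
    right
    exact Finset.mem_coe.mpr ((Set.Finite.mem_toFinset hfy).mpr hw)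
  have p1 := prod_abs_eq_one hx
  have p2 := prod_abs_eq_one hy
  rw [e1] at p1
  rw [e2] at p2
  have h1 : ∏ v ∈ S, v x ≤ ∏ v ∈ S, v y :=
    Finset.prod_le_prod (fun v _ => apply_nonneg _ _) fun v _ => h v
  have h2 : 0 < ∏ v ∈ S, v x := Finset.prod_pos fun v _ => FinitePlace.pos_iff.mpr hx
  have h3 : 0 ≤ ∏ w : InfinitePlace K, w y ^ w.mult :=
    Finset.prod_nonneg fun w _ => pow_nonneg (apply_nonneg _ _) _
  by_contra hcon
  push Not at hcon
  have h4 := mul_lt_mul_of_pos_right hcon h2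
  have h5 := mul_le_mul_of_nonneg_left h1 h3
  linarith

lemma prod_inf_eq {x y : K} (hx : x ≠ 0) (hy : y ≠ 0) (h : ∀ v : FinitePlace K, v x = v y) :
    ∏ w : InfinitePlace K, w x ^ w.mult = ∏ w : InfinitePlace K, w y ^ w.mult :=
  le_antisymm (prod_inf_le hy hx fun v => (h v).ge) (prod_inf_le hx hy fun v => (h v).le)

lemma place_far {p : ℕ} (hp : 1 ≤ p) (w : InfinitePlace K) {X Y Z : K} (hY : Y ≠ 0)
    (h : (Y + X - Z) ^ p - (Y - X - Z) ^ p + (Y + Z - X) ^ p = 0) (hZX : w Z ≤ w X) :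
    w Y ≤ 8 * p * w X := by
  by_contra hcon
  push Not at hcon
  have hpR : (0 : ℝ) < p := by exact_mod_cast hp
  obtain ⟨φ, hφ⟩ : ∃ φ : K →+* ℂ, φ = w.embedding := ⟨_, rfl⟩
  have hw : ∀ x : K, ‖φ x‖ = w x := fun x => by rw [hφ]; exact w.norm_embedding_eq x
  have hY' : φ Y ≠ 0 := (map_ne_zero φ).mpr hY
  have hYpos : 0 < w Y := by rw [← hw]; exact norm_pos_iff.mpr hY'
  have h1 := congrArg φ h
  simp only [map_add, map_sub, map_pow, map_zero] at h1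
  have h2 : w X / w Y ≤ 1 / (8 * p) := by
    rw [div_le_div_iff₀ hYpos (by positivity)]
    linarith
  refine far_case hp (X := φ X / φ Y) (Z := φ Z / φ Y) ?_ ?_ ?_
  · rw [norm_div, hw, hw]; exact h2
  · rw [norm_div, hw, hw]
    exact (div_le_div_of_nonneg_right hZX hYpos.le).trans h2
  · have e : ∀ x y z : ℂ, φ Y ≠ 0 → x + y - z = (φ Y) * ((x + y - z) / φ Y) := by
      intro x y z h0
      field_simp
    have e1 : (1 : ℂ) + φ X / φ Y - φ Z / φ Y = (φ Y + φ X - φ Z) / φ Y := by field_simp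
    have e2 : (1 : ℂ) - φ X / φ Y - φ Z / φ Y = (φ Y - φ X - φ Z) / φ Y := by field_simp
    have e3 : (1 : ℂ) + φ Z / φ Y - φ X / φ Y = (φ Y + φ Z - φ X) / φ Y := by field_simp
    rw [e1, e2, e3, div_pow, div_pow, div_pow, ← sub_div, ← add_div, h1, zero_div]

lemma place_near {p : ℕ} {B : ℝ} (hB : 0 < B) (hp : 4 * B ≤ p) (w : InfinitePlace K) {X Y Z : K}
    (hY : Y ≠ 0) (h : (Y + X - Z) ^ p - (Y - X - Z) ^ p + (Y + Z - X) ^ p = 0)
    (hZX : w Z ≤ w X) (hX : p * w X ≤ B * w Y) :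
    Real.exp (-(6 * B)) / 2 * w Y ≤ p * w Z := by
  have hpR : (0 : ℝ) < p := by linarith
  obtain ⟨φ, hφ⟩ : ∃ φ : K →+* ℂ, φ = w.embedding := ⟨_, rfl⟩
  have hw : ∀ x : K, ‖φ x‖ = w x := fun x => by rw [hφ]; exact w.norm_embedding_eq x
  have hY' : φ Y ≠ 0 := (map_ne_zero φ).mpr hY
  have hYpos : 0 < w Y := by rw [← hw]; exact norm_pos_iff.mpr hY'
  have h1 := congrArg φ h
  simp only [map_add, map_sub, map_pow, map_zero] at h1
  have h2 : w X / w Y ≤ B / p := by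
    rw [div_le_div_iff₀ hYpos hpR]
    linarith
  have h3 := near_case hB hp (X := φ X / φ Y) (Z := φ Z / φ Y) (by
    rw [norm_div, hw, hw]; exact h2) (by
    rw [norm_div, norm_div, hw, hw, hw]
    exact div_le_div_of_nonneg_right hZX hYpos.le) (by
    have e1 : (1 : ℂ) + φ X / φ Y - φ Z / φ Y = (φ Y + φ X - φ Z) / φ Y := by field_simp
    have e2 : (1 : ℂ) - φ X / φ Y - φ Z / φ Y = (φ Y - φ X - φ Z) / φ Y := by field_simp
    have e3 : (1 : ℂ) + φ Z / φ Y - φ X / φ Y = (φ Y + φ Z - φ X) / φ Y := by field_simp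
    rw [e1, e2, e3, div_pow, div_pow, div_pow, ← sub_div, ← add_div, h1, zero_div])
  rw [norm_div, hw, hw, ← mul_div_assoc, le_div_iff₀ hYpos] at h3
  exact h3

end Pool.Agent.W7.FH
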