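import Pool.Agent.W7.FH.Tp

/-!
Fermat's equation over number fields with at most two infinite places: the main theorem.
-/

set_option autoImplicit false

namespace Pool.Agent.W7.FH

open NumberField IsDedekindDomain Height

/-- the constant of the near case -/
noncomputable def eps0 : ℝ := Real.exp (-(6 * 5184)) / 2

lemma eps0_pos : 0 < eps0 := by unfold eps0; positivity

lemma eps0_le : eps0 ≤ 1 := by
  have h : ∀ e : ℝ, e ≤ 1 → e / 2 ≤ 1 := fun e he => by linarith
  exact h _ (Real.exp_le_one_iff.mpr (by norm_num))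

variable {K : Type} [Field K] [NumberField K]

/-- the symmetric form of Fermat's equation in `X = a + b`, `Y = b + c`, `Z = c + a` -/
def FG (p : ℕ) (X Y Z : K) : Prop :=
  (X + Y - Z) ^ p + (Y + Z - X) ^ p + (Z + X - Y) ^ p = 0

omit [NumberField K] in
lemma FG.form {p : ℕ} (hodd : Odd p) {X Y Z : K} (h : FG p X Y Z) :
    (Y + X - Z) ^ p - (Y - X - Z) ^ p + (Y + Z - X) ^ p = 0 := by
  unfold FG at h
  have e1 : Y - X - Z = -(Z + X - Y) := by ring
  have e2 : Y + X - Z = X + Y - Z := by ring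
  rw [e1, e2, hodd.neg_pow]
  linear_combination h

omit [NumberField K] in
lemma FG.rot {p : ℕ} {X Y Z : K} (h : FG p X Y Z) : FG p Y Z X := by
  unfold FG at h ⊢
  linear_combination h

omit [NumberField K] in
lemma FG.swap {p : ℕ} {X Y Z : K} (h : FG p X Y Z) : FG p Z Y X := by
  unfold FG at h ⊢
  rw [show Z + Y - X = Y + Z - X by ring, show Y + X - Z = X + Y - Z by ring,
    show X + Z - Y = Z + X - Y by ring]
  linear_combination h

omit [NumberField K] in
lemma mult_bounds (w : InfinitePlace K) : 1 ≤ w.mult ∧ w.mult ≤ 2 := by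
  unfold InfinitePlace.mult
  split_ifs <;> omega

omit [NumberField K] in
lemma inf_pos (w : InfinitePlace K) {x : K} (hx : x ≠ 0) : 0 < w x :=
  InfinitePlace.pos_iff.mpr hx

lemma prod_two (w1 w2 : InfinitePlace K) (hne : w1 ≠ w2) (hu : ∀ w, w = w1 ∨ w = w2)
    (f : InfinitePlace K → ℝ) : ∏ w, f w = f w1 * f w2 := by
  classical
  have : (Finset.univ : Finset (InfinitePlace K)) = {w1, w2} := by
    ext w
    simpa using hu w
  rw [this, Finset.prod_pair hne]

lemma reverse_order {w1 w2 : InfinitePlace K} (hne : w1 ≠ w2) (hu : ∀ w, w = w1 ∨ w = w2)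
    {x y : K} (hx : x ≠ 0) (hy : y ≠ 0) (h : ∀ v : FinitePlace K, v x = v y) (h1 : w1 x ≤ w1 y) :
    w2 y ≤ w2 x := by
  by_contra hcon
  push Not at hcon
  have h2 := prod_inf_eq hx hy h
  rw [prod_two w1 w2 hne hu, prod_two w1 w2 hne hu] at h2
  have hx1 := inf_pos w1 hx
  have hx2 := inf_pos w2 hx
  have h3 : w1 x ^ w1.mult ≤ w1 y ^ w1.mult := pow_le_pow_left₀ hx1.le h1 _
  have h4 : w2 x ^ w2.mult < w2 y ^ w2.mult :=
    pow_lt_pow_left₀ hcon hx2.le (by have := (mult_bounds w2).1; omega)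
  have h5 : 0 < w1 x ^ w1.mult := by positivity
  have h6 : 0 < w2 x ^ w2.mult := by positivity
  nlinarith

lemma two_place_ordered {p : ℕ} (hodd : Odd p) (hp1 : 4 * 5184 ≤ (p : ℝ))
    (hp2 : 81 < (p : ℝ) * eps0 ^ 2) {w1 w2 : InfinitePlace K} (hne : w1 ≠ w2)
    (hu : ∀ w, w = w1 ∨ w = w2) {X Y Z : K} (hX : X ≠ 0) (hY : Y ≠ 0) (hZ : Z ≠ 0)
    (hS : X + Y + Z ≠ 0) (hXY : ∀ v : FinitePlace K, v X = v Y)
    (hZY : ∀ v : FinitePlace K, v Z = v Y)
    (hSv : ∀ v : FinitePlace K, v (X + Y + Z) ≤ v (p : K) * v Y) (hG : FG p X Y Z)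
    (h1 : w1 Z ≤ w1 X) (h2 : w1 X ≤ w1 Y) : False := by
  have hpR : (0 : ℝ) < p := by linarith
  have hpN : 1 ≤ p := by
    rcases Nat.eq_zero_or_pos p with h0 | h0
    · rw [h0] at hpR; simp at hpR
    · exact h0
  have hp0 : (p : K) ≠ 0 := by exact_mod_cast (by omega : p ≠ 0)
  have h3 : w2 Y ≤ w2 X := reverse_order hne hu hX hY hXY h2
  have h4 : w2 X ≤ w2 Z := reverse_order hne hu hZ hX (fun v => (hZY v).trans (hXY v).symm) h1
  have hbd : ∀ w : InfinitePlace K, w (X + Y + Z) ≤ w X + w Y + w Z := fun w =>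
    (w.1.add_le _ _).trans (add_le_add (w.1.add_le _ _) le_rfl)
  have b1 : w1 (X + Y + Z) ≤ 3 * w1 Y := by
    have := hbd w1
    linarith
  have b2 : w2 (X + Y + Z) ≤ 3 * w2 Z := by
    have := hbd w2
    linarith
  have key : ∀ x : K, x ≠ 0 → (∀ v : FinitePlace K, v x = v Y) →
      (p * w1 x) ^ w1.mult * (p * w2 x) ^ w2.mult ≤
        (3 * w1 Y) ^ w1.mult * (3 * w2 Z) ^ w2.mult := by
    intro x hx hxv
    have h5 := prod_inf_le (x := X + Y + Z) (y := (p : K) * x) hS (mul_ne_zero hp0 hx) (by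
      intro v
      rw [map_mul, hxv v]
      exact hSv v)
    rw [prod_two w1 w2 hne hu, prod_two w1 w2 hne hu, inf_natCast_mul, inf_natCast_mul] at h5
    refine h5.trans ?_
    have a1 : w1 (X + Y + Z) ^ w1.mult ≤ (3 * w1 Y) ^ w1.mult :=
      pow_le_pow_left₀ (apply_nonneg _ _) b1 _
    have a2 : w2 (X + Y + Z) ^ w2.mult ≤ (3 * w2 Z) ^ w2.mult :=
      pow_le_pow_left₀ (apply_nonneg _ _) b2 _
    have hY1 := inf_pos w1 hY
    exact mul_le_mul a1 a2 (pow_nonneg (apply_nonneg _ _) _) (by positivity)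
  refine two_real (mult_bounds w1).1 (mult_bounds w1).2 (mult_bounds w2).1 (mult_bounds w2).2
    (p := p) (ε := eps0) (x1 := w1 X) (y1 := w1 Y) (z1 := w1 Z) (x2 := w2 X) (z2 := w2 Z)
    (inf_pos _ hX) (inf_pos _ hY) (inf_pos _ hZ) (inf_pos _ hZ) eps0_pos eps0_le
    (by exact_mod_cast hpN) hp2 (key X hX hXY) (key Z hZ hZY) ?_ ?_
  · exact place_far hpN w2 hZ (X := X) (Y := Z) (Z := Y) ((hG.rot.swap).form hodd) h3
  · intro h5
    exact place_near (by norm_num) hp1 w1 hY (hG.form hodd) h1 h5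

lemma two_place {p : ℕ} (hodd : Odd p) (hp1 : 4 * 5184 ≤ (p : ℝ))
    (hp2 : 81 < (p : ℝ) * eps0 ^ 2) {w1 w2 : InfinitePlace K} (hne : w1 ≠ w2)
    (hu : ∀ w, w = w1 ∨ w = w2) {X Y Z : K} (hX : X ≠ 0) (hY : Y ≠ 0) (hZ : Z ≠ 0)
    (hS : X + Y + Z ≠ 0) (hXY : ∀ v : FinitePlace K, v X = v Y)
    (hZY : ∀ v : FinitePlace K, v Z = v Y)
    (hSv : ∀ v : FinitePlace K, v (X + Y + Z) ≤ v (p : K) * v Y) (hG : FG p X Y Z) : False := by
  have hYZX : Y + Z + X ≠ 0 := fun h0 => hS (by linear_combination h0)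
  have hZXY : Z + X + Y ≠ 0 := fun h0 => hS (by linear_combination h0)
  have hZYX : Z + Y + X ≠ 0 := fun h0 => hS (by linear_combination h0)
  have hYXZ : Y + X + Z ≠ 0 := fun h0 => hS (by linear_combination h0)
  have hXZY : X + Z + Y ≠ 0 := fun h0 => hS (by linear_combination h0)
  -- `fin A B C`: the middle `A`, the largest `B`, the least `C` at `w1`
  rcases le_total (w1 X) (w1 Y) with h1 | h1
  · rcases le_total (w1 Z) (w1 X) with h2 | h2
    · exact two_place_ordered hodd hp1 hp2 hne hu hX hY hZ hS hXY hZY hSv hG h2 h1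
    · rcases le_total (w1 Z) (w1 Y) with h3 | h3
      · -- X ≤ Z ≤ Y
        exact two_place_ordered hodd hp1 hp2 hne hu hZ hY hX hZYX hZY hXY
          (fun v => by rw [show Z + Y + X = X + Y + Z by ring]; exact hSv v) hG.swap h2 h3
      · -- X ≤ Y ≤ Z
        exact two_place_ordered hodd hp1 hp2 hne hu hY hZ hX hYZX (fun v => (hZY v).symm)
          (fun v => (hXY v).trans (hZY v).symm)
          (fun v => by rw [show Y + Z + X = X + Y + Z by ring, hZY v]; exact hSv v) hG.rot h1 h3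
  · rcases le_total (w1 Z) (w1 Y) with h2 | h2
    · -- Z ≤ Y ≤ X
      exact two_place_ordered hodd hp1 hp2 hne hu hY hX hZ hYXZ (fun v => (hXY v).symm)
        (fun v => (hZY v).trans (hXY v).symm)
        (fun v => by rw [show Y + X + Z = X + Y + Z by ring, hXY v]; exact hSv v)
        (hG.rot.rot.swap) h2 h1
    · rcases le_total (w1 Z) (w1 X) with h3 | h3
      · -- Y ≤ Z ≤ X
        exact two_place_ordered hodd hp1 hp2 hne hu hZ hX hY hZXY
          (fun v => (hZY v).trans (hXY v).symm) (fun v => (hXY v).symm)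
          (fun v => by rw [show Z + X + Y = X + Y + Z by ring, hXY v]; exact hSv v)
          (hG.rot.rot) h2 h3
      · -- Y ≤ X ≤ Z
        exact two_place_ordered hodd hp1 hp2 hne hu hX hZ hY hXZY
          (fun v => (hXY v).trans (hZY v).symm) (fun v => (hZY v).symm)
          (fun v => by rw [show X + Z + Y = X + Y + Z by ring, hZY v]; exact hSv v)
          (hG.rot.swap) h1 h3

end Pool.Agent.W7.FH
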