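import Pool.Agent.W7.FH.Ht

/-!
Solutions of small height: the sums `a + b`, `b + c`, `c + a` are locally of maximal absolute value.
-/

set_option autoImplicit false

namespace Pool.Agent.W7.FH

open NumberField IsDedekindDomain Height

variable {K : Type} [Field K] [NumberField K]

/-- `max (|a|, |b|, |c|)` -/
noncomputable def mx (v : FinitePlace K) (a b c : K) : ℝ := max (max (v a) (v b)) (v c)

lemma mx_rot (v : FinitePlace K) (a b c : K) : mx v b c a = mx v a b c := by
  unfold mx
  rw [max_comm (max (v b) (v c)), ← max_assoc]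

lemma mulHeight_rot (a b c : K) : mulHeight ![b, c, a] = mulHeight ![a, b, c] := by
  have h := mulHeight_comp_equiv (finRotate 3) ![a, b, c]
  rw [← h]
  congr 1
  funext i
  fin_cases i <;> rfl

lemma mulHeight_neg_last (a b c : K) (ha : a ≠ 0) :
    mulHeight ![a, b, -c] = mulHeight ![a, b, c] := by
  have h1 : ![a, b, -c] ≠ 0 := fun h0 => ha (congrFun h0 0)
  have h2 : ![a, b, c] ≠ 0 := fun h0 => ha (congrFun h0 0)
  rw [NumberField.mulHeight_eq h1, NumberField.mulHeight_eq h2]
  congr 1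
  · refine Finset.prod_congr rfl fun w _ => ?_
    have e : w (-c) = w c := w.1.map_neg c
    rw [iSup_three w a b (-c), iSup_three w a b c, e]
  · refine finprod_congr fun w => ?_
    have e : w (-c) = w c := map_neg_eq_map w c
    rw [iSup_three w a b (-c), iSup_three w a b c, e]

omit [NumberField K] in
lemma add_ne_zero_of_fermat {p : ℕ} (hodd : Odd p) {a b c : K} (hc : c ≠ 0)
    (h : a ^ p + b ^ p + c ^ p = 0) : a + b ≠ 0 := by
  intro h0
  have h1 : a = -b := by linear_combination h0
  rw [h1, hodd.neg_pow, neg_add_cancel, zero_add] at h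
  exact hc ((pow_eq_zero_iff hodd.pos.ne').1 h)

theorem units_of_small {m : ℕ} (hm2 : 2 ≤ m)
    (hm : ∀ p : ℕ, p.Prime → p ∣ m → Module.finrank ℚ K + 1 < p)
    {a b c : K} (ha : a ≠ 0) (hb : b ≠ 0) (hc : c ≠ 0)
    (h : a ^ m + b ^ m + c ^ m = 0) {Q : ℝ} (hQ0 : 0 ≤ Q)
    (hQ1 : ∀ v : FinitePlace K, Q ≤ (nrm v : ℝ) ^ m)
    (hQ2 : Q * (m : ℝ) ^ Module.finrank ℚ K ≤ (m.minFac : ℝ) ^ m)
    (hH : 2 ^ Module.finrank ℚ K * mulHeight ![a, b, c] < Q) (v : FinitePlace K) :
    v (a + b) = mx v a b c ∧ v (b + c) = mx v a b c ∧ v (c + a) = mx v a b c := by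
  have hodd : Odd m := odd_of_big Module.finrank_pos hm
  have key : ∀ {a b c : K}, a ≠ 0 → b ≠ 0 → c ≠ 0 → a ^ m + b ^ m + c ^ m = 0 →
      2 ^ Module.finrank ℚ K * mulHeight ![a, b, c] < Q → v (a + b) = mx v a b c := by
    intro a b c ha hb hc h hH
    apply le_antisymm ((FinitePlace.add_le v a b).trans (le_max_left _ _))
    by_contra hcon
    push Not at hcon
    have h1 := local_small v hm2 hm hb h hcon (hQ1 v) hQ2
    have h2 := height_ge ha hb hc (add_ne_zero_of_fermat hodd hc h) v hQ0 h1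
    linarith
  refine ⟨key ha hb hc h hH, ?_, ?_⟩
  · rw [← mx_rot]
    exact key hb hc ha (by linear_combination h) (by rw [mulHeight_rot]; exact hH)
  · rw [← mx_rot, ← mx_rot]
    exact key hc ha hb (by linear_combination h) (by rw [mulHeight_rot, mulHeight_rot]; exact hH)

/-- integrality from the finite places -/
lemma isIntegral_of_le (x : K) (h : ∀ v : FinitePlace K, v x ≤ 1) : IsIntegral ℤ x := by
  have h1 : ∀ v : HeightOneSpectrum (𝓞 K), v.valuation K x ≤ 1 := by
    intro v
    have h2 := h (FinitePlace.mk v)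
    rw [FinitePlace.mk_apply, FinitePlace.norm_embedding, HeightOneSpectrum.adicAbv_def] at h2
    have h3 : WithZeroMulInt.toNNReal (HeightOneSpectrum.absNorm_ne_zero v) (v.valuation K x) ≤ 1 := by
      exact_mod_cast h2
    rwa [WithZeroMulInt.toNNReal_le_one_iff (HeightOneSpectrum.one_lt_absNorm_nnreal v)] at h3
  obtain ⟨y, hy⟩ := (HeightOneSpectrum.mem_integers_of_valuation_le_one K x) h1
  rw [← hy]
  exact y.2

end Pool.Agent.W7.FH
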